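import Pool.Agent.T2H72.CK.Stm

/-! Package ALG: the algebra of the two families. -/

set_option autoImplicit false

namespace Pool.Agent.T2H72.CK

open Set Filter Topology

theorem pALG : S_ALG := by
  refine ⟨?_, ?_, ?_, ?_⟩
  · rintro μ ⟨p, hp⟩
    have h00 := hp 0 0
    have h01 := hp 0 1
    have h11 := hp 1 1
    simp at h00 h01 h11
    have e0 : p 0 = 1 := by
      have h2 : (2 : ℂ) * p 0 = 2 * 1 := by
        rw [two_mul, h00]
        norm_num [Complex.ext_iff]
      exact mul_left_cancel₀ two_ne_zero h2
    have e1 : p 1 * μ = 1 := by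
      have h2 : (2 : ℂ) * (p 1 * μ) = 2 * 1 := by
        rw [two_mul, h11]
        norm_num [Complex.ext_iff]
      exact mul_left_cancel₀ two_ne_zero h2
    rw [e0, one_mul] at h01
    have e2 : p 1 = -μ := by linear_combination h01
    rw [e2] at e1
    linear_combination -e1
  · intro μ hμ
    rw [LinearIndependent.pair_iff]
    intro s t h
    have him := congrArg Complex.im h
    have hre := congrArg Complex.re h
    simp at him hre
    have ht : t = 0 := by
      rcases him with h | h
      · exact h
      · exact absurd h hμ.ne'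
    rw [ht] at hre
    simp at hre
    exact ⟨hre, ht⟩
  · rw [LinearIndependent.pair_iff]
    intro s t h
    have h1 := congrArg Prod.fst h
    have hre := congrArg Complex.re h1
    have him := congrArg Complex.im h1
    simp at him hre
    exact ⟨hre, him⟩
  · rintro ⟨p, g, hg, h⟩
    apply hg
    have h00 := h 0 0
    have h01 := h 0 1
    have h10 := h 1 0
    have h11 := h 1 1
    simp [Prod.ext_iff, Complex.ext_iff] at h00 h01 h10 h11
    obtain ⟨⟨a1, a2⟩, a3, a4⟩ := h00
    obtain ⟨⟨b1, b2⟩, b3, b4⟩ := h01
    obtain ⟨⟨c1, c2⟩, c3, c4⟩ := h10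
    obtain ⟨⟨d1, d2⟩, d3, d4⟩ := h11
    funext j l
    fin_cases j <;> fin_cases l <;> simp <;> linarith

end Pool.Agent.T2H72.CK
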