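import Pool.Agent.T2H72.CK.Stm

/-! Package ANA: the kernels are real analytic off the diagonal. -/

set_option autoImplicit false

namespace Pool.Agent.T2H72.CK

open Set Filter Topology

namespace PkgANA

theorem L_inj {μ : ℂ} (hμ : 0 < μ.im) {x y : Pl} (h : L μ x = L μ y) : x = y := by
  unfold L at h
  have hμ0 : μ ≠ 0 := by
    intro h0
    rw [h0] at hμ
    simp at hμ
  have e1 : (x.1 : ℂ) * μ - x.2 = y.1 * μ - y.2 := by
    have h2 := congrArg (fun z => z * μ) h
    simp only [sub_mul, div_mul_cancel₀ _ hμ0] at h2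
    exact h2
  have him := congrArg Complex.im e1
  have hre := congrArg Complex.re e1
  simp at him hre
  have h1 : x.1 = y.1 := by
    rcases him with h | h
    · exact h
    · exact absurd h hμ.ne'
  have h2 : x.2 = y.2 := by
    rw [h1] at hre
    linarith
  exact Prod.ext h1 h2

end PkgANA

theorem pANA : S_ANA := by
  intro μ hμ q hq
  have hμ0 : μ ≠ 0 := by
    intro h0
    rw [h0] at hμ
    simp at hμ
  have hne : L μ q.1 - L μ q.2 ≠ 0 := by
    intro h
    exact hq (PkgANA.L_inj hμ (sub_eq_zero.mp h))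
  have a11 : AnalyticAt ℝ (fun q : Pl × Pl => ((q.1.1 : ℝ) : ℂ)) q := by
    have := (Complex.ofRealCLM.comp
      ((ContinuousLinearMap.fst ℝ ℝ ℝ).comp (ContinuousLinearMap.fst ℝ Pl Pl))).analyticAt q
    exact this
  have a12 : AnalyticAt ℝ (fun q : Pl × Pl => ((q.1.2 : ℝ) : ℂ)) q := by
    have := (Complex.ofRealCLM.comp
      ((ContinuousLinearMap.snd ℝ ℝ ℝ).comp (ContinuousLinearMap.fst ℝ Pl Pl))).analyticAt q
    exact this
  have a21 : AnalyticAt ℝ (fun q : Pl × Pl => ((q.2.1 : ℝ) : ℂ)) q := by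
    have := (Complex.ofRealCLM.comp
      ((ContinuousLinearMap.fst ℝ ℝ ℝ).comp (ContinuousLinearMap.snd ℝ Pl Pl))).analyticAt q
    exact this
  have a22 : AnalyticAt ℝ (fun q : Pl × Pl => ((q.2.2 : ℝ) : ℂ)) q := by
    have := (Complex.ofRealCLM.comp
      ((ContinuousLinearMap.snd ℝ ℝ ℝ).comp (ContinuousLinearMap.snd ℝ Pl Pl))).analyticAt q
    exact this
  have aL1 : AnalyticAt ℝ (fun q : Pl × Pl => L μ q.1) q := by
    unfold L
    simp only [div_eq_mul_inv]
    exact a11.sub (a12.mul analyticAt_const)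
  have aL2 : AnalyticAt ℝ (fun q : Pl × Pl => L μ q.2) q := by
    unfold L
    simp only [div_eq_mul_inv]
    exact a21.sub (a22.mul analyticAt_const)
  have hd : AnalyticAt ℝ (fun q : Pl × Pl =>
      2 * (Real.pi : ℂ) * Complex.I * μ * (L μ q.1 - L μ q.2)) q :=
    analyticAt_const.mul (aL1.sub aL2)
  have hd0 : 2 * (Real.pi : ℂ) * Complex.I * μ * (L μ q.1 - L μ q.2) ≠ 0 := by
    have hpi : (Real.pi : ℂ) ≠ 0 := by exact_mod_cast Real.pi_ne_zero
    exact mul_ne_zero (mul_ne_zero (mul_ne_zero (mul_ne_zero two_ne_zero hpi) Complex.I_ne_zero)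
      hμ0) hne
  unfold Ker
  exact analyticAt_const.div hd hd0

end Pool.Agent.T2H72.CK
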