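import Pool.Agent.T2H72.CK.Stm

/-!
# CK, package DIX: Cauchy's formula for domains with boundary, by Dixon's proof
-/

set_option autoImplicit false

open Set Filter Topology

namespace Pool.Agent.T2H72.CK

namespace PkgDIX

variable {M : Set ℂ} {n : ℕ} {γ : Fin n → ℝ → ℂ}

theorem frontier_sub (h : Dom M γ) : frontier M ⊆ M := h.cpt.isClosed.frontier_subset

theorem range_sub (h : Dom M γ) (i : Fin n) : range (γ i) ⊆ frontier M := by
  rw [← h.bd]
  exact subset_iUnion (fun i => range (γ i)) i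

theorem mem_U (h : Dom M γ) {U : Set ℂ} (hMU : M ⊆ U) (i : Fin n) (t : ℝ) : γ i t ∈ U :=
  hMU (frontier_sub h (range_sub h i (mem_range_self t)))

theorem cont (h : Dom M γ) (i : Fin n) : Continuous (γ i) := (h.smooth i).continuous

theorem contd (h : Dom M γ) (i : Fin n) : Continuous (deriv (γ i)) :=
  (h.smooth i).continuous_deriv le_rfl

theorem cont_phi (h : Dom M γ) {U : Set ℂ} {f : ℂ → ℂ} (hMU : M ⊆ U)
    (hf : DifferentiableOn ℂ f U) (i : Fin n) :
    Continuous fun t => f (γ i t) * deriv (γ i) t :=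
  (hf.continuousOn.comp_continuous (cont h i) (mem_U h hMU i)).mul (contd h i)

/-- Dixon's first function -/
noncomputable def DD (γ : Fin n → ℝ → ℂ) (f : ℂ → ℂ) (z : ℂ) : ℂ :=
  ∑ i, ∫ t in (0 : ℝ)..1, dslope f (γ i t) z * deriv (γ i) t

/-- Dixon's second function -/
noncomputable def hh (γ : Fin n → ℝ → ℂ) (f : ℂ → ℂ) (z : ℂ) : ℂ :=
  ∑ i, ∫ t in (0 : ℝ)..1, f (γ i t) * deriv (γ i) t / (γ i t - z)

theorem ne_of (h : Dom M γ) {z : ℂ} (hz : z ∉ frontier M) (i : Fin n) (t : ℝ) : γ i t - z ≠ 0 := by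
  intro h0
  apply hz
  rw [← sub_eq_zero.1 h0]
  exact range_sub h i (mem_range_self t)

theorem DD_eq (h : Dom M γ) {U : Set ℂ} {f : ℂ → ℂ} (hMU : M ⊆ U)
    (hf : DifferentiableOn ℂ f U) {z : ℂ} (hz : z ∉ frontier M) :
    DD γ f z = hh γ f z - f z * Wd γ z := by
  unfold DD hh Wd
  rw [Finset.mul_sum, ← Finset.sum_sub_distrib]
  refine Finset.sum_congr rfl fun i _ => ?_
  have c1 : Continuous fun t => f (γ i t) * deriv (γ i) t / (γ i t - z) :=
    (cont_phi h hMU hf i).div ((cont h i).sub continuous_const) (ne_of h hz i)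
  have c2 : Continuous fun t => deriv (γ i) t / (γ i t - z) :=
    (contd h i).div ((cont h i).sub continuous_const) (ne_of h hz i)
  have c3 : Continuous fun t => f z * (deriv (γ i) t / (γ i t - z)) := continuous_const.mul c2
  rw [← intervalIntegral.integral_const_mul, ← intervalIntegral.integral_sub
    (c1.intervalIntegrable _ _) (c3.intervalIntegrable _ _)]
  refine intervalIntegral.integral_congr fun t _ => ?_
  have hne := ne_of h hz i t
  have hne' : z ≠ γ i t := fun e => hne (by rw [e, sub_self])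
  have hne2 : z - γ i t ≠ 0 := sub_ne_zero.2 hne'
  rw [dslope_of_ne _ hne', slope_def_field, div_mul_eq_mul_div, mul_div_assoc', ← sub_div,
    div_eq_div_iff hne2 hne]
  ring

end PkgDIX

open PkgDIX in
theorem pDIX (hWIN : S_WIN) (hDX1 : S_DX1) (hDX2 : S_DX2) (hINF : S_INF) : S_DIX := by
  intro M n γ h U f hU hMU hf z₀ hz₀
  classical
  have hMo : IsOpen Mᶜ := h.cpt.isClosed.isOpen_compl
  have hDdiff : DifferentiableOn ℂ (DD γ f) U := by
    unfold DD
    refine DifferentiableOn.fun_sum fun i _ => ?_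
    exact hDX1 U f (γ i) (deriv (γ i)) hU hf (cont h i) (contd h i) (mem_U h hMU i)
  have hhdiff : DifferentiableOn ℂ (hh γ f) Mᶜ := by
    unfold hh
    refine DifferentiableOn.fun_sum fun i _ => ?_
    refine (hDX2 (γ i) (fun t => f (γ i t) * deriv (γ i) t) (cont h i) (cont_phi h hMU hf i)
      (h.per i)).mono ?_
    intro z hz hz'
    exact hz (frontier_sub h (range_sub h i hz'))
  have hout : ∀ z, z ∉ M → z ∈ U → DD γ f z = hh γ f z := by
    intro z hz _
    rw [DD_eq h hMU hf (fun hz' => hz (frontier_sub h hz')), (hWIN M n γ h).2 z hz, mul_zero,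
      sub_zero]
  set H : ℂ → ℂ := fun z => if z ∈ U then DD γ f z else hh γ f z with hH
  have hHM : ∀ z, z ∉ M → H z = hh γ f z := by
    intro z hz
    simp only [hH]
    split_ifs with hu
    · exact hout z hz hu
    · rfl
  have hdiff : Differentiable ℂ H := by
    intro z
    by_cases hz : z ∈ U
    · have h1 : DifferentiableAt ℂ (DD γ f) z := (hDdiff z hz).differentiableAt (hU.mem_nhds hz)
      refine h1.congr_of_eventuallyEq ?_
      filter_upwards [hU.mem_nhds hz] with w hw
      simp only [hH, if_pos hw]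
    · have hzM : z ∈ Mᶜ := fun h' => hz (hMU h')
      have h1 : DifferentiableAt ℂ (hh γ f) z := (hhdiff z hzM).differentiableAt (hMo.mem_nhds hzM)
      refine h1.congr_of_eventuallyEq ?_
      filter_upwards [hMo.mem_nhds hzM] with w hw
      exact hHM w hw
  have hlim : Tendsto H (cocompact ℂ) (𝓝 0) := by
    have h1 : Tendsto (hh γ f) (cocompact ℂ) (𝓝 0) := by
      have h2 : Tendsto (hh γ f) (cocompact ℂ) (𝓝 (∑ _i : Fin n, (0 : ℂ))) := by
        unfold hh
        refine tendsto_finsetSum _ fun i _ => ?_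
        exact hINF (γ i) (fun t => f (γ i t) * deriv (γ i) t) (cont h i) (cont_phi h hMU hf i)
      simpa using h2
    refine h1.congr' ?_
    have : Mᶜ ∈ cocompact ℂ := h.cpt.compl_mem_cocompact
    filter_upwards [this] with w hw
    exact (hHM w hw).symm
  have h0 : H z₀ = 0 := hdiff.apply_eq_of_tendsto_cocompact z₀ hlim
  have hzM : z₀ ∈ M := interior_subset hz₀
  have hzf : z₀ ∉ frontier M := fun h' => h'.2 hz₀
  have h1 : H z₀ = DD γ f z₀ := by
    simp only [hH, if_pos (hMU hzM)]
  rw [h1, DD_eq h hMU hf hzf, (hWIN M n γ h).1 z₀ hz₀] at h0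
  have h2 : hh γ f z₀ = f z₀ * (2 * Real.pi * Complex.I) := sub_eq_zero.1 h0
  unfold hh at h2
  rw [h2]
  ring

end Pool.Agent.T2H72.CK
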