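import Pool.Agent.T2H72.CK.Stm

/-! Package DSK: the closed unit disc. -/

set_option autoImplicit false

namespace Pool.Agent.T2H72.CK

open Set Filter Topology

namespace PkgDSK

/-- the closed disc -/
def D : Set Pl := {x : Pl | x.1 ^ 2 + x.2 ^ 2 ≤ 1}

/-- the circle -/
noncomputable def g (t : ℝ) : Pl := (Real.cos (2 * Real.pi * t), Real.sin (2 * Real.pi * t))

theorem mem_D (x : Pl) : x ∈ D ↔ x.1 ^ 2 + x.2 ^ 2 ≤ 1 := Iff.rfl

theorem cont_sq : Continuous (fun x : Pl => x.1 ^ 2 + x.2 ^ 2) := by fun_prop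

theorem compact_D : IsCompact D := by
  have hcl : IsClosed D := isClosed_le cont_sq continuous_const
  apply Metric.isCompact_of_isClosed_isBounded hcl
  rw [isBounded_iff_forall_norm_le]
  refine ⟨1, fun x hx => ?_⟩
  rw [mem_D] at hx
  rw [Prod.norm_def]
  apply max_le
  · rw [Real.norm_eq_abs]
    exact abs_le_one_iff_mul_self_le_one.mpr (by nlinarith [sq_nonneg x.2])
  · rw [Real.norm_eq_abs]
    exact abs_le_one_iff_mul_self_le_one.mpr (by nlinarith [sq_nonneg x.1])

theorem frontier_D : frontier D = {x : Pl | x.1 ^ 2 + x.2 ^ 2 = 1} := by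
  apply Subset.antisymm
  · exact frontier_le_subset_eq cont_sq continuous_const
  · intro p hp
    have hp' : p.1 ^ 2 + p.2 ^ 2 = 1 := hp
    rw [frontier_eq_closure_inter_closure]
    refine ⟨subset_closure (by rw [mem_D]; exact hp'.le), ?_⟩
    have hlim : Tendsto (fun s : ℝ => ((1 + s) • p : Pl)) (𝓝[>] (0:ℝ)) (𝓝 p) := by
      have hc : Continuous (fun s : ℝ => ((1 + s) • p : Pl)) := by fun_prop
      have := hc.tendsto 0
      simp only [add_zero, one_smul] at this
      exact this.mono_left nhdsWithin_le_nhds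
    apply mem_closure_of_tendsto hlim
    filter_upwards [self_mem_nhdsWithin] with s hs
    have hs' : 0 < s := hs
    intro hmem
    have h1 : ((1 + s) • p).1 ^ 2 + ((1 + s) • p).2 ^ 2 ≤ 1 := hmem
    simp only [Prod.smul_fst, Prod.smul_snd, smul_eq_mul] at h1
    have h2 : ((1 + s) * p.1) ^ 2 + ((1 + s) * p.2) ^ 2 = (1 + s) ^ 2 := by
      have : ((1 + s) * p.1) ^ 2 + ((1 + s) * p.2) ^ 2 = (1 + s) ^ 2 * (p.1 ^ 2 + p.2 ^ 2) := by ring
      rw [this, hp', mul_one]
    rw [h2] at h1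
    nlinarith

theorem hasDeriv_g (t : ℝ) : HasDerivAt g
    (-(2 * Real.pi * Real.sin (2 * Real.pi * t)), 2 * Real.pi * Real.cos (2 * Real.pi * t)) t := by
  have h0 : HasDerivAt (fun t : ℝ => 2 * Real.pi * t) (2 * Real.pi) t := by
    simpa using (hasDerivAt_id t).const_mul (2 * Real.pi)
  have h1 := h0.cos
  have h2 := h0.sin
  have h3 := h1.prodMk h2
  have e : ((-Real.sin (2 * Real.pi * t) * (2 * Real.pi),
      Real.cos (2 * Real.pi * t) * (2 * Real.pi)) : ℝ × ℝ)
      = (-(2 * Real.pi * Real.sin (2 * Real.pi * t)),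
        2 * Real.pi * Real.cos (2 * Real.pi * t)) := by
    apply Prod.ext <;> simp <;> ring
  rw [e] at h3
  exact h3

theorem smooth_D : SmoothDomain D := by
  refine ⟨compact_D, fun p hp => ?_⟩
  rw [frontier_D] at hp
  have hp' : p.1 ^ 2 + p.2 ^ 2 = 1 := hp
  refine ⟨fun x => x.1 ^ 2 + x.2 ^ 2 - 1, ?_, ?_, ?_⟩
  · have : ContDiff ℝ (⊤ : ℕ∞) (fun x : Pl => x.1 ^ 2 + x.2 ^ 2 - 1) := by fun_prop
    exact this.contDiffAt
  · intro h0
    have h1 : HasFDerivAt (fun x : Pl => x.1 ^ 2 + x.2 ^ 2 - 1)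
        (0 : Pl →L[ℝ] ℝ) p := by
      rw [← h0]
      have : Differentiable ℝ (fun x : Pl => x.1 ^ 2 + x.2 ^ 2 - 1) := by fun_prop
      exact (this p).hasFDerivAt
    have h2 : HasDerivAt (fun s : ℝ => ((1 + s) • p : Pl)) p 0 := by
      have h3 : HasDerivAt (fun s : ℝ => 1 + s) 1 0 := by
        simpa using (hasDerivAt_id (0:ℝ)).const_add 1
      simpa using h3.smul_const p
    have h1' : HasFDerivAt (fun x : Pl => x.1 ^ 2 + x.2 ^ 2 - 1)
        (0 : Pl →L[ℝ] ℝ) ((fun s : ℝ => ((1 + s) • p : Pl)) 0) := by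
      simpa using h1
    have h4 := h1'.comp_hasDerivAt (0:ℝ) h2
    have h5 : HasDerivAt (fun s : ℝ => (1 + s) ^ 2 - 1) 2 0 := by
      have h3 : HasDerivAt (fun s : ℝ => 1 + s) 1 0 := by
        simpa using (hasDerivAt_id (0:ℝ)).const_add 1
      have h7 := h3.pow 2
      norm_num at h7
      exact h7.sub_const 1
    have h6 : (fun s : ℝ => (1 + s) ^ 2 - 1) =
        ((fun x : Pl => x.1 ^ 2 + x.2 ^ 2 - 1) ∘ (fun s : ℝ => ((1 + s) • p : Pl))) := by
      funext s
      simp only [Function.comp, Prod.smul_fst, Prod.smul_snd, smul_eq_mul]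
      have : ((1 + s) * p.1) ^ 2 + ((1 + s) * p.2) ^ 2 = (1 + s) ^ 2 * (p.1 ^ 2 + p.2 ^ 2) := by ring
      rw [this, hp', mul_one]
    rw [h6] at h5
    have := h4.unique h5
    simp at this
  · refine Eventually.of_forall fun x => ?_
    rw [mem_D]
    constructor <;> intro h <;> simp only at * <;> linarith

theorem param_D : BoundaryParam D (fun (_ : Fin 1) (t : ℝ) => g t) := by
  have hpi : 0 < Real.pi := Real.pi_pos
  refine ⟨?_, ?_, ?_, ?_, ?_, ?_⟩
  · intro i
    unfold g
    have h1 : ContDiff ℝ (⊤ : ℕ∞) (fun t : ℝ => Real.cos (2 * Real.pi * t)) :=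
      Real.contDiff_cos.comp (contDiff_const.mul contDiff_id)
    have h2 : ContDiff ℝ (⊤ : ℕ∞) (fun t : ℝ => Real.sin (2 * Real.pi * t)) :=
      Real.contDiff_sin.comp (contDiff_const.mul contDiff_id)
    exact h1.prodMk h2
  · intro i t
    unfold g
    have e : 2 * Real.pi * (t + 1) = 2 * Real.pi * t + 2 * Real.pi := by ring
    simp only [e, Real.cos_add_two_pi, Real.sin_add_two_pi]
  · intro i t
    rw [(hasDeriv_g t).deriv]
    intro h
    have h1 := congrArg Prod.fst h
    have h2 := congrArg Prod.snd h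
    simp only [Prod.fst_zero, Prod.snd_zero] at h1 h2
    have s0 : Real.sin (2 * Real.pi * t) = 0 := by
      have : 2 * Real.pi * Real.sin (2 * Real.pi * t) = 0 := by linarith
      rcases mul_eq_zero.mp this with h | h
      · linarith
      · exact h
    have c0 : Real.cos (2 * Real.pi * t) = 0 := by
      rcases mul_eq_zero.mp h2 with h | h
      · linarith
      · exact h
    have := Real.sin_sq_add_cos_sq (2 * Real.pi * t)
    rw [s0, c0] at this
    norm_num at this
  · intro i j s t h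
    refine ⟨Subsingleton.elim _ _, ?_⟩
    have h1 := congrArg Prod.fst h
    have h2 := congrArg Prod.snd h
    simp only [g] at h1 h2
    have hc : Real.cos (2 * Real.pi * s - 2 * Real.pi * t) = 1 := by
      rw [Real.cos_sub, h1, h2]
      have := Real.sin_sq_add_cos_sq (2 * Real.pi * t)
      nlinarith
    obtain ⟨m, hm⟩ := (Real.cos_eq_one_iff _).mp hc
    refine ⟨m, ?_⟩
    have h3 : (2 * Real.pi) * (m : ℝ) = (2 * Real.pi) * (s - t) := by linarith
    have h4 := mul_left_cancel₀ (by positivity : (2 * Real.pi) ≠ 0) h3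
    linarith
  · rw [frontier_D]
    ext p
    simp only [mem_iUnion, mem_range, mem_ofPred_eq]
    constructor
    · rintro ⟨_, t, rfl⟩
      simp only [g]
      exact Real.cos_sq_add_sin_sq _
    · intro hp
      refine ⟨0, ?_⟩
      have hn : ‖(⟨p.1, p.2⟩ : ℂ)‖ = 1 := by
        rw [Complex.norm_def, Complex.normSq_apply]
        simp only
        rw [← pow_two, ← pow_two, hp, Real.sqrt_one]
      have h1 := Complex.norm_mul_cos_arg (⟨p.1, p.2⟩ : ℂ)
      have h2 := Complex.norm_mul_sin_arg (⟨p.1, p.2⟩ : ℂ)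
      rw [hn, one_mul] at h1 h2
      refine ⟨Complex.arg ⟨p.1, p.2⟩ / (2 * Real.pi), ?_⟩
      have e : 2 * Real.pi * (Complex.arg ⟨p.1, p.2⟩ / (2 * Real.pi)) = Complex.arg ⟨p.1, p.2⟩ := by
        field_simp
      unfold g
      rw [e, h1, h2]
  · intro i t
    rw [(hasDeriv_g t).deriv]
    have hmem : Ioo (0:ℝ) (1 / Real.pi) ∈ 𝓝[>] (0:ℝ) :=
      Ioo_mem_nhdsGT (by positivity)
    filter_upwards [hmem] with s hs
    rw [mem_D]
    simp only [g, Prod.fst_add, Prod.snd_add, Prod.smul_fst, Prod.smul_snd, smul_eq_mul]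
    have h1 : (Real.cos (2 * Real.pi * t) + s * -(2 * Real.pi * Real.cos (2 * Real.pi * t))) ^ 2 +
        (Real.sin (2 * Real.pi * t) + s * -(2 * Real.pi * Real.sin (2 * Real.pi * t))) ^ 2 =
        (1 - 2 * (Real.pi * s)) ^ 2 *
          (Real.cos (2 * Real.pi * t) ^ 2 + Real.sin (2 * Real.pi * t) ^ 2) := by ring
    rw [h1, Real.cos_sq_add_sin_sq, mul_one]
    have h2 : 0 < Real.pi * s := mul_pos hpi hs.1
    have h3 : Real.pi * s < 1 := by
      have := mul_lt_mul_of_pos_left hs.2 hpi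
      rwa [mul_one_div_cancel hpi.ne'] at this
    nlinarith

end PkgDSK

theorem pDSK : S_DSK := ⟨PkgDSK.smooth_D, PkgDSK.param_D⟩

end Pool.Agent.T2H72.CK
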