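import Pool.Agent.T2H72.CK.Stm

/-!
# Package DX1: Dixon's first function is holomorphic
-/

set_option autoImplicit false

namespace Pool.Agent.T2H72.CK

open Set Filter Topology

namespace PkgDX1

theorem dslope_symm (f : ℂ → ℂ) (w z : ℂ) : dslope f w z = dslope f z w := by
  by_cases h : w = z
  · rw [h]
  · rw [dslope_of_ne f (Ne.symm h), dslope_of_ne f h, slope_comm]

theorem diffOn {U : Set ℂ} {f : ℂ → ℂ} (hU : IsOpen U) (hf : DifferentiableOn ℂ f U) {w : ℂ}
    (hw : w ∈ U) : DifferentiableOn ℂ (dslope f w) U :=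
  (Complex.differentiableOn_dslope (hU.mem_nhds hw)).mpr hf

theorem cont_t {U : Set ℂ} {f : ℂ → ℂ} {γ : ℝ → ℂ} (hU : IsOpen U) (hf : DifferentiableOn ℂ f U)
    (hγ : Continuous γ) (hγU : ∀ t, γ t ∈ U) {z : ℂ} (hz : z ∈ U) :
    Continuous (fun t => dslope f (γ t) z) := by
  have h : (fun t => dslope f (γ t) z) = fun t => dslope f z (γ t) :=
    funext fun t => dslope_symm f (γ t) z
  rw [h]
  exact (diffOn hU hf hz).continuousOn.comp_continuous hγ hγU

theorem bound {U : Set ℂ} {f : ℂ → ℂ} {γ : ℝ → ℂ} (hU : IsOpen U) (hf : DifferentiableOn ℂ f U)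
    (hγ : Continuous γ) (hγU : ∀ t, γ t ∈ U) {z₀ : ℂ} (hz₀ : z₀ ∈ U) :
    ∃ r : ℝ, 0 < r ∧ Metric.closedBall z₀ (2 * r) ⊆ U ∧ ∃ B : ℝ, ∀ t ∈ Icc (0 : ℝ) 1,
      ∀ z ∈ Metric.closedBall z₀ r, ‖dslope f (γ t) z‖ ≤ B := by
  obtain ⟨R, hR, hRU⟩ := Metric.nhds_basis_closedBall.mem_iff.mp (hU.mem_nhds hz₀)
  refine ⟨R / 2, by linarith, ?_, ?_⟩
  · rw [mul_div_cancel₀ R two_ne_zero]
    exact hRU
  obtain ⟨M0, hM0⟩ := (isCompact_closedBall z₀ R).exists_bound_of_continuousOn
    (hf.continuousOn.mono hRU)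
  obtain ⟨M1, hM1⟩ := (isCompact_Icc (a := (0 : ℝ)) (b := 1)).exists_bound_of_continuousOn
    (hf.continuousOn.comp_continuous hγ hγU).continuousOn
  have hslope : ∀ t ∈ Icc (0 : ℝ) 1, ∀ z ∈ Metric.closedBall z₀ R, R / 4 ≤ ‖z - γ t‖ →
      ‖dslope f (γ t) z‖ ≤ (R / 4)⁻¹ * (M0 + M1) := by
    intro t ht z hz hd
    have hne : z ≠ γ t := by
      intro h
      rw [h, sub_self, norm_zero] at hd
      linarith
    rw [dslope_of_ne f hne]
    unfold slope
    rw [vsub_eq_sub, norm_smul, norm_inv]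
    have h1 : ‖f z - f (γ t)‖ ≤ M0 + M1 := (norm_sub_le _ _).trans (add_le_add (hM0 z hz) (hM1 t ht))
    have h0 : 0 ≤ M0 + M1 := (norm_nonneg _).trans h1
    apply mul_le_mul _ h1 (norm_nonneg _) (by positivity)
    exact inv_anti₀ (by linarith) hd
  refine ⟨(R / 4)⁻¹ * (M0 + M1), ?_⟩
  intro t ht z hz
  rw [Metric.mem_closedBall, dist_eq_norm] at hz
  by_cases hcase : 3 * R / 4 ≤ ‖γ t - z₀‖
  · apply hslope t ht z
    · rw [Metric.mem_closedBall, dist_eq_norm]
      linarith
    · have h1 : ‖γ t - z₀‖ ≤ ‖z - γ t‖ + ‖z - z₀‖ := by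
        have h2 : γ t - z₀ = -(z - γ t) + (z - z₀) := by ring
        rw [h2]
        refine (norm_add_le _ _).trans ?_
        rw [norm_neg]
      linarith
  · push Not at hcase
    have hcl : closure (Metric.ball z₀ R) ⊆ U := Metric.closure_ball_subset_closedBall.trans hRU
    have hd : DiffContOnCl ℂ (dslope f (γ t)) (Metric.ball z₀ R) :=
      ((diffOn hU hf (hγU t)).mono hcl).diffContOnCl
    apply Complex.norm_le_of_forall_mem_frontier_norm_le Metric.isBounded_ball hd
    · intro ζ hζ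
      rw [frontier_ball z₀ hR.ne', Metric.mem_sphere, dist_eq_norm] at hζ
      apply hslope t ht ζ
      · rw [Metric.mem_closedBall, dist_eq_norm]
        exact hζ.le
      · have h1 : ‖ζ - z₀‖ ≤ ‖ζ - γ t‖ + ‖γ t - z₀‖ := by
          have h2 : ζ - z₀ = (ζ - γ t) + (γ t - z₀) := by ring
          rw [h2]
          exact norm_add_le _ _
        linarith
    · apply subset_closure
      rw [Metric.mem_ball, dist_eq_norm]
      linarith

end PkgDX1

open PkgDX1 in
theorem pDX1 : S_DX1 := by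
  intro U f γ φ hU hf hγ hφ hγU z₀ hz₀
  obtain ⟨r, hr, hrU, B, hB⟩ := bound hU hf hγ hγU hz₀
  have hball : ∀ z ∈ Metric.ball z₀ r, z ∈ U := by
    intro z hz
    apply hrU
    rw [Metric.mem_ball] at hz
    rw [Metric.mem_closedBall]
    linarith
  have hdiff : ∀ t, ∀ z ∈ Metric.ball z₀ r,
      HasDerivAt (dslope f (γ t)) (deriv (dslope f (γ t)) z) z := by
    intro t z hz
    exact ((diffOn hU hf (hγU t)).differentiableAt (hU.mem_nhds (hball z hz))).hasDerivAt
  have hmeas : MeasureTheory.StronglyMeasurable (fun t : ℝ => deriv (dslope f (γ t)) z₀) := by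
    have hseq : ∀ n : ℕ, ‖((r / ((n : ℝ) + 2) : ℝ) : ℂ)‖ < r := by
      intro n
      have hn : (0 : ℝ) ≤ n := Nat.cast_nonneg n
      rw [Complex.norm_real, Real.norm_of_nonneg (by positivity), div_lt_iff₀ (by positivity)]
      nlinarith
    have hseq0 : Tendsto (fun n : ℕ => ((r / ((n : ℝ) + 2) : ℝ) : ℂ)) atTop (𝓝[≠] 0) := by
      apply tendsto_nhdsWithin_of_tendsto_nhds_of_eventually_within
      · have h1 : Tendsto (fun n : ℕ => (n : ℝ) + 2) atTop atTop :=
          tendsto_atTop_add_const_right _ _ tendsto_natCast_atTop_atTop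
        have h2 : Tendsto (fun n : ℕ => r / ((n : ℝ) + 2)) atTop (𝓝 0) := h1.const_div_atTop r
        have h3 := (Complex.continuous_ofReal.tendsto (0 : ℝ)).comp h2
        rw [Complex.ofReal_zero] at h3
        exact h3
      · apply Filter.Eventually.of_forall
        intro n
        rw [mem_compl_iff, mem_singleton_iff, Complex.ofReal_eq_zero]
        have hn : (0 : ℝ) ≤ n := Nat.cast_nonneg n
        positivity
    apply stronglyMeasurable_of_tendsto atTop (f := fun (n : ℕ) (t : ℝ) =>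
      ((r / ((n : ℝ) + 2) : ℝ) : ℂ)⁻¹ •
        (dslope f (γ t) (z₀ + ((r / ((n : ℝ) + 2) : ℝ) : ℂ)) - dslope f (γ t) z₀))
    · intro n
      apply Continuous.stronglyMeasurable
      have hzn : z₀ + ((r / ((n : ℝ) + 2) : ℝ) : ℂ) ∈ U := by
        apply hball
        rw [Metric.mem_ball, dist_eq_norm, add_sub_cancel_left]
        exact hseq n
      have h1 : Continuous (fun t : ℝ =>
          dslope f (γ t) (z₀ + ((r / ((n : ℝ) + 2) : ℝ) : ℂ)) - dslope f (γ t) z₀) :=
        (cont_t hU hf hγ hγU hzn).sub (cont_t hU hf hγ hγU hz₀)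
      have h2 : Continuous (fun t : ℝ => (((r / ((n : ℝ) + 2) : ℝ) : ℂ)⁻¹ : ℂ) *
          (dslope f (γ t) (z₀ + ((r / ((n : ℝ) + 2) : ℝ) : ℂ)) - dslope f (γ t) z₀)) :=
        continuous_const.mul h1
      exact h2
    · rw [tendsto_pi_nhds]
      intro t
      exact ((hdiff t z₀ (Metric.mem_ball_self hr)).tendsto_slope_zero).comp hseq0
  have key := intervalIntegral.hasDerivAt_integral_of_dominated_loc_of_deriv_le
    (μ := MeasureTheory.volume) (a := (0 : ℝ)) (b := 1) (x₀ := z₀)
    (F := fun (z : ℂ) (t : ℝ) => dslope f (γ t) z * φ t)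
    (F' := fun (z : ℂ) (t : ℝ) => deriv (dslope f (γ t)) z * φ t)
    (bound := fun t => B / (r / 2) * ‖φ t‖)
    (Metric.ball_mem_nhds z₀ (show 0 < r / 2 by linarith))
    (by
      filter_upwards [hU.mem_nhds hz₀] with z hz
      exact ((cont_t hU hf hγ hγU hz).mul hφ).aestronglyMeasurable)
    (((cont_t hU hf hγ hγU hz₀).mul hφ).intervalIntegrable _ _)
    ((hmeas.mul hφ.stronglyMeasurable).aestronglyMeasurable)
    (by
      apply Filter.Eventually.of_forall
      intro t ht z hz
      rw [uIoc_of_le zero_le_one] at ht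
      rw [norm_mul]
      apply mul_le_mul_of_nonneg_right _ (norm_nonneg _)
      rw [Metric.mem_ball] at hz
      have hsub : Metric.closedBall z (r / 2) ⊆ Metric.closedBall z₀ r := by
        apply Metric.closedBall_subset_closedBall'
        linarith
      apply Complex.norm_deriv_le_of_forall_mem_sphere_norm_le (by linarith)
      · apply DifferentiableOn.diffContOnCl
        apply (diffOn hU hf (hγU t)).mono
        refine Metric.closure_ball_subset_closedBall.trans (hsub.trans (subset_trans ?_ hrU))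
        exact Metric.closedBall_subset_closedBall (by linarith)
      · intro ζ hζ
        exact hB t ⟨ht.1.le, ht.2⟩ ζ (hsub (Metric.sphere_subset_closedBall hζ)))
    ((hφ.norm.const_mul _).intervalIntegrable _ _)
    (by
      apply Filter.Eventually.of_forall
      intro t _ z hz
      rw [Metric.mem_ball] at hz
      apply HasDerivAt.mul_const
      apply hdiff t z
      rw [Metric.mem_ball]
      linarith)
  exact key.2.differentiableAt.differentiableWithinAt

end Pool.Agent.T2H72.CK
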