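import Pool.Agent.T2H72.CK.Stm

set_option autoImplicit false

namespace Pool.Agent.T2H72.CK

open Set Filter Topology

namespace PkgDX2

lemma closed_range (γ : ℝ → ℂ) (hγ : Continuous γ) (hp : ∀ t, γ (t + 1) = γ t) :
    IsClosed (range γ) := by
  have h : range γ = γ '' Icc 0 1 := by
    have hP : Function.Periodic γ 1 := hp
    have := hP.image_Icc one_pos 0
    rw [zero_add] at this
    exact this.symm
  rw [h]
  exact (isCompact_Icc.image hγ).isClosed

end PkgDX2

open PkgDX2 in
theorem pDX2 : S_DX2 := by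
  intro γ φ hγ hφ hp z₀ hz₀
  have hcl := closed_range γ hγ hp
  obtain ⟨r, hr, hball⟩ := Metric.isOpen_iff.1 hcl.isOpen_compl z₀ hz₀
  obtain ⟨B, hB⟩ := (isCompact_Icc (a := (0 : ℝ)) (b := 1)).exists_bound_of_continuousOn
    hφ.continuousOn
  have hne : ∀ z ∈ Metric.ball z₀ r, ∀ t, γ t - z ≠ 0 := by
    intro z hz t h
    have : z ∈ (range γ)ᶜ := hball hz
    apply this
    exact ⟨t, by linear_combination h⟩
  have hlow : ∀ z ∈ Metric.ball z₀ (r / 2), ∀ t, r / 2 ≤ ‖γ t - z‖ := by
    intro z hz t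
    have h1 : r ≤ ‖γ t - z₀‖ := by
      by_contra hlt
      push Not at hlt
      have : γ t ∈ Metric.ball z₀ r := by
        rw [Metric.mem_ball, dist_eq_norm]; exact hlt
      exact hball this ⟨t, rfl⟩
    have h2 : ‖z - z₀‖ < r / 2 := by
      rw [← dist_eq_norm]; exact hz
    have h3 : ‖γ t - z₀‖ ≤ ‖γ t - z‖ + ‖z - z₀‖ := by
      calc ‖γ t - z₀‖ = ‖(γ t - z) + (z - z₀)‖ := by congr 1; ring
        _ ≤ _ := norm_add_le _ _
    linarith
  have hsub : Metric.ball z₀ (r / 2) ⊆ Metric.ball z₀ r :=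
    Metric.ball_subset_ball (by linarith)
  have key := intervalIntegral.hasDerivAt_integral_of_dominated_loc_of_deriv_le
    (𝕜 := ℂ) (μ := MeasureTheory.volume) (a := 0) (b := 1)
    (F := fun z t => φ t / (γ t - z)) (F' := fun z t => φ t / (γ t - z) ^ 2)
    (x₀ := z₀) (s := Metric.ball z₀ (r / 2)) (bound := fun _ => |B| / (r / 2) ^ 2)
    (Metric.ball_mem_nhds z₀ (by linarith)) ?_ ?_ ?_ ?_ ?_ ?_
  · exact key.2.differentiableAt.differentiableWithinAt
  · filter_upwards [Metric.ball_mem_nhds z₀ hr] with z hz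
    exact (hφ.div (hγ.sub continuous_const) (hne z hz)).aestronglyMeasurable
  · exact (hφ.div (hγ.sub continuous_const) (hne z₀ (Metric.mem_ball_self hr))).intervalIntegrable
      0 1
  · exact (hφ.div ((hγ.sub continuous_const).pow 2)
      (fun t => pow_ne_zero 2 (hne z₀ (Metric.mem_ball_self hr) t))).aestronglyMeasurable
  · refine Eventually.of_forall fun t ht z hz => ?_
    have ht' : t ∈ Icc (0 : ℝ) 1 := by
      rw [uIoc_of_le zero_le_one] at ht
      exact ⟨ht.1.le, ht.2⟩
    rw [norm_div, norm_pow]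
    apply div_le_div₀ (abs_nonneg B) ((hB t ht').trans (le_abs_self B)) (by positivity)
    exact pow_le_pow_left₀ (by positivity) (hlow z hz t) 2
  · exact intervalIntegrable_const
  · refine Eventually.of_forall fun t _ z hz => ?_
    have h0 := hne z (hsub hz) t
    have h1 : HasDerivAt (fun z : ℂ => γ t - z) (-1) z := by
      simpa using (hasDerivAt_id z).const_sub (γ t)
    have h2 := h1.inv h0
    have h3 := h2.const_mul (φ t)
    simpa [div_eq_mul_inv] using h3

end Pool.Agent.T2H72.CK
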