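import Pool.Agent.T2H72.CK.Stm
set_option autoImplicit false
namespace Pool.Agent.T2H72.CK
open Set Filter Topology

theorem not_admissible_of {e : Fin 2 → ℂ × ℂ}
    (h : ¬ ∃ (p : Fin 2 → ℂ × ℂ) (g : Fin 2 → Fin 2 → ℝ), g ≠ 0 ∧
        ∀ j l, p j * e l + p l * e j = (2 * g j l) • (1 : ℂ × ℂ)) : ¬ Admissible e := by
  rintro ⟨p, hp⟩
  apply h
  refine ⟨p, fun j l => if j = l then 1 else 0, ?_, ?_⟩
  · intro h0
    have := congrFun (congrFun h0 0) 0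
    simp at this
  · intro j l
    rw [hp]
    rcases eq_or_ne j l with rfl | hjl
    · simp
    · simp [hjl]

theorem isOpen_offdiag : IsOpen {q : Pl × Pl | q.1 ≠ q.2} :=
  isOpen_ne_fun continuous_fst continuous_snd

theorem final (hS : S_SCA) (hA : S_ANA) (hP : S_PRD) (hL : S_ALG) :
    (∃ e : Fin 2 → ℂ × ℂ, LinearIndependent ℝ e ∧
      (∃ G : Pl → Pl → ℂ × ℂ,
        AnalyticOnNhd ℝ (fun q : Pl × Pl => G q.1 q.2) {q | q.1 ≠ q.2} ∧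
        ContDiffOn ℝ 1 (fun q : Pl × Pl => G q.1 q.2) {q | q.1 ≠ q.2} ∧
        CauchyFormula e G) ∧
      ¬ Admissible e ∧
      ¬ ∃ (p : Fin 2 → ℂ × ℂ) (g : Fin 2 → Fin 2 → ℝ), g ≠ 0 ∧
        ∀ j l, p j * e l + p l * e j = (2 * g j l) • (1 : ℂ × ℂ)) ∧
    (∀ μ : ℂ, 0 < μ.im → LinearIndependent ℝ (![1, μ] : Fin 2 → ℂ) ∧
      (∃ G : Pl → Pl → ℂ,
        AnalyticOnNhd ℝ (fun q : Pl × Pl => G q.1 q.2) {q | q.1 ≠ q.2} ∧
        ContDiffOn ℝ 1 (fun q : Pl × Pl => G q.1 q.2) {q | q.1 ≠ q.2} ∧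
        CauchyFormula ![1, μ] G) ∧
      (Admissible (![1, μ] : Fin 2 → ℂ) → μ = Complex.I)) := by
  obtain ⟨a1, a2, a3, a4⟩ := hL
  refine ⟨⟨![(1, 1), (Complex.I, 1 + Complex.I)], a3,
    ⟨fun x x₀ => (Ker Complex.I x x₀, Ker (1 + Complex.I) x x₀), hP.2,
      hP.2.contDiffOn isOpen_offdiag.uniqueDiffOn, hP.1⟩, not_admissible_of a4, a4⟩, ?_⟩
  intro μ hμ
  refine ⟨a2 μ hμ, ⟨Ker μ, hA μ hμ, (hA μ hμ).contDiffOn isOpen_offdiag.uniqueDiffOn, hS μ hμ⟩, ?_⟩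
  intro hadm
  have h1 := a1 μ hadm
  have h2 : (μ - Complex.I) * (μ + Complex.I) = 0 := by
    linear_combination h1 - Complex.I_sq
  rcases mul_eq_zero.1 h2 with h | h
  · exact sub_eq_zero.1 h
  · exfalso
    have h3 : μ = -Complex.I := eq_neg_of_add_eq_zero_left h
    rw [h3] at hμ
    simp at hμ
    linarith

end Pool.Agent.T2H72.CK
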