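import Pool.Agent.T2H72.CK.Stm

set_option autoImplicit false

namespace Pool.Agent.T2H72.CK

open Set Filter Topology

namespace PkgHOL

/-- the inverse of `L μ` -/
noncomputable def K (μ : ℂ) : ℂ →L[ℝ] Pl :=
  (Complex.reCLM - ((μ⁻¹).re / (μ⁻¹).im) • Complex.imCLM).prod
    (-(1 / (μ⁻¹).im) • Complex.imCLM)

lemma K_apply (μ w : ℂ) : K μ w =
    (w.re - (μ⁻¹).re / (μ⁻¹).im * w.im, -(1 / (μ⁻¹).im) * w.im) := rfl

lemma L_re (μ : ℂ) (x : Pl) : (L μ x).re = x.1 - x.2 * (μ⁻¹).re := by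
  unfold L
  rw [div_eq_mul_inv, Complex.sub_re, Complex.re_ofReal_mul, Complex.ofReal_re]

lemma L_im (μ : ℂ) (x : Pl) : (L μ x).im = - (x.2 * (μ⁻¹).im) := by
  unfold L
  rw [div_eq_mul_inv, Complex.sub_im, Complex.im_ofReal_mul, Complex.ofReal_im, zero_sub]

lemma inv_im (μ : ℂ) (h : 0 < μ.im) : (μ⁻¹).im ≠ 0 := by
  rw [Complex.inv_im]
  have : 0 < Complex.normSq μ := by
    rw [Complex.normSq_pos]
    intro h0
    rw [h0] at h
    simp at h
  exact div_ne_zero (by linarith) this.ne'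

lemma L_K (μ : ℂ) (h : 0 < μ.im) (w : ℂ) : L μ (K μ w) = w := by
  have hi := inv_im μ h
  apply Complex.ext
  · rw [L_re, K_apply]
    generalize μ⁻¹ = m at *
    field_simp
    ring
  · rw [L_im, K_apply]
    generalize μ⁻¹ = m at *
    field_simp

lemma K_L (μ : ℂ) (h : 0 < μ.im) (x : Pl) : K μ (L μ x) = x := by
  have hi := inv_im μ h
  rw [K_apply, L_re, L_im]
  generalize μ⁻¹ = m at *
  ext
  · show _ = x.1
    field_simp
    ring
  · show _ = x.2
    field_simp

end PkgHOL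

open PkgHOL in
theorem pHOL : S_HOL := by
  intro μ hμ U f hU hf
  have himg : L μ '' U = K μ ⁻¹' U := by
    ext w
    constructor
    · rintro ⟨x, hx, rfl⟩
      show K μ (L μ x) ∈ U
      rw [K_L μ hμ]; exact hx
    · intro hw
      exact ⟨K μ w, hw, L_K μ hμ w⟩
  refine ⟨himg ▸ hU.preimage (K μ).continuous, fun w => f (K μ w), ?_, fun x => by
    show f (K μ (L μ x)) = f x
    rw [K_L μ hμ]⟩
  intro w hw
  rw [himg] at hw
  have hd := (hf.1 _ hw).hasFDerivAt
  have hK := (K μ).hasFDerivAt (x := w)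
  have hc := hd.comp w hK
  set D := fderiv ℝ f (K μ w) with hD
  have heq := hf.2 _ hw
  simp only [Matrix.cons_val_zero, Matrix.cons_val_one, one_mul] at heq
  rw [← hD] at heq
  have hμ0 : μ ≠ 0 := by
    intro h0
    rw [h0] at hμ
    simp at hμ
  have hDv : ∀ x : Pl, D x = D (1, 0) * L μ x := by
    intro x
    have hx : x = x.1 • ((1, 0) : Pl) + x.2 • ((0, 1) : Pl) := by
      ext <;> simp
    have h1 : D x = (x.1 : ℂ) * D (1, 0) + (x.2 : ℂ) * D (0, 1) := by
      conv_lhs => rw [hx]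
      rw [map_add, map_smul, map_smul, Complex.real_smul, Complex.real_smul]
    rw [h1]
    unfold L
    field_simp
    linear_combination (x.2 : ℂ) * heq
  have hfd : D.comp (K μ) =
      (ContinuousLinearMap.toSpanSingleton ℂ (D (1, 0))).restrictScalars ℝ := by
    ext1 v
    show D (K μ v) = v • D (1, 0)
    rw [hDv, L_K μ hμ, smul_eq_mul, mul_comm]
  have hres : HasFDerivAt (𝕜 := ℝ) (fun w => f (K μ w))
      ((ContinuousLinearMap.toSpanSingleton ℂ (D (1, 0))).restrictScalars ℝ) w := by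
    rw [← hfd]; exact hc
  have hC : HasFDerivAt (𝕜 := ℂ) (fun w => f (K μ w))
      (ContinuousLinearMap.toSpanSingleton ℂ (D (1, 0))) w := by
    exact hasFDerivAt_of_restrictScalars ℝ hc hfd.symm
  exact hC.differentiableAt.differentiableWithinAt

end Pool.Agent.T2H72.CK
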