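import Pool.Agent.T2H72.CK.Stm

/-! Package INF: Cauchy type integrals tend to zero at infinity. -/

set_option autoImplicit false

namespace Pool.Agent.T2H72.CK

open Set Filter Topology

theorem pINF : S_INF := by
  intro γ φ hγ hφ
  obtain ⟨R, hR⟩ := (isCompact_Icc (a := (0:ℝ)) (b := 1)).exists_bound_of_continuousOn
    (f := γ) hγ.continuousOn
  obtain ⟨B, hB⟩ := (isCompact_Icc (a := (0:ℝ)) (b := 1)).exists_bound_of_continuousOn
    (f := φ) hφ.continuousOn
  have hB0 : 0 ≤ B := le_trans (norm_nonneg _) (hB 0 (by norm_num))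
  have hn : Tendsto (fun z : ℂ => ‖z‖) (cocompact ℂ) atTop := tendsto_norm_cocompact_atTop
  have hlim : Tendsto (fun z : ℂ => B / (‖z‖ - R)) (cocompact ℂ) (𝓝 0) := by
    apply Tendsto.div_atTop tendsto_const_nhds
    exact tendsto_atTop_add_const_right _ (-R) hn
  apply squeeze_zero_norm' _ hlim
  filter_upwards [hn.eventually_gt_atTop R] with z hz
  have hpos : 0 < ‖z‖ - R := by linarith
  have := intervalIntegral.norm_integral_le_of_norm_le_const (a := (0:ℝ)) (b := 1)
    (f := fun t => φ t / (γ t - z)) (C := B / (‖z‖ - R)) (by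
      intro t ht
      rw [uIoc_of_le zero_le_one] at ht
      have ht' : t ∈ Icc (0:ℝ) 1 := ⟨ht.1.le, ht.2⟩
      rw [norm_div]
      have h1 : ‖z‖ - R ≤ ‖γ t - z‖ := by
        have := norm_sub_norm_le z (γ t)
        rw [norm_sub_rev] at this
        linarith [hR t ht']
      exact div_le_div₀ hB0 (hB t ht') hpos h1)
  simpa using this

end Pool.Agent.T2H72.CK
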