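import Pool.Agent.T2H72.CK.Stm

set_option autoImplicit false

namespace Pool.Agent.T2H72.CK

open Set Filter Topology

theorem pLC2 (hLOC : S_LOC) : S_LC2 := by
  intro M n γ D i t
  obtain ⟨ρ, hρ, hM, hv⟩ := D.loc i t
  set p : ℂ := γ i t with hp
  set v : ℂ := Complex.I * deriv (γ i) t with hvdef
  have hclosed : IsClosed M := D.cpt.isClosed
  have hpf : p ∈ frontier M := by
    rw [← D.bd]
    exact mem_iUnion.2 ⟨i, t, rfl⟩
  have hpM : p ∈ M := hclosed.frontier_subset hpf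
  have hpi : p ∉ interior M := hpf.2
  have hρ0 : ρ p = 0 := by
    have h1 : ρ p ≤ 0 := (hM.self_of_nhds).1 hpM
    by_contra hne
    have h2 : ρ p < 0 := lt_of_le_of_ne h1 hne
    apply hpi
    rw [mem_interior_iff_mem_nhds]
    have h3 : ∀ᶠ x in 𝓝 p, ρ x < 0 := hρ.continuousAt.eventually_lt_const h2
    filter_upwards [hM, h3] with x hx1 hx2
    exact hx1.2 hx2.le
  let P : Set ℂ := {x | (∀ᶠ y in 𝓝 x, (y ∈ M ↔ ρ y ≤ 0)) ∧ DifferentiableAt ℝ ρ x ∧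
    fderiv ℝ ρ x v < 0}
  have hP : P ∈ 𝓝 p := by
    have h1 : ∀ᶠ x in 𝓝 p, ∀ᶠ y in 𝓝 x, (y ∈ M ↔ ρ y ≤ 0) := eventually_eventually_nhds.2 hM
    have h2 : ∀ᶠ x in 𝓝 p, DifferentiableAt ℝ ρ x := by
      have := hρ.eventually (by simp)
      filter_upwards [this] with x hx
      exact hx.differentiableAt (by simp)
    have h3 : ContinuousAt (fun x => fderiv ℝ ρ x v) p := by
      have h4 : ContDiffAt ℝ 0 (fderiv ℝ ρ) p := hρ.fderiv_right (by simp)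
      exact (h4.continuousAt).clm_apply continuousAt_const
    have h5 : ∀ᶠ x in 𝓝 p, fderiv ℝ ρ x v < 0 := h3.eventually_lt_const hv
    filter_upwards [h1, h2, h5] with x a b c
    exact ⟨a, b, c⟩
  obtain ⟨N, hNo, hpN, hNP, hc1, hc2, hs1, hs2⟩ := hLOC ρ p v P hρ hρ0 hv hP
  refine ⟨N, N ∩ {x | ρ x < 0}, N ∩ {x | 0 < ρ x}, hNo, hpN, hc1, hc2, ?_, ?_, ?_, hs1, hs2⟩
  · rintro x ⟨hxN, hx⟩
    obtain ⟨ha, hb, -⟩ := hNP hxN
    rw [mem_interior_iff_mem_nhds]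
    have h3 : ∀ᶠ y in 𝓝 x, ρ y < 0 := hb.continuousAt.eventually_lt_const hx
    filter_upwards [ha, h3] with y h1 h2
    exact h1.2 h2.le
  · rintro x ⟨hxN, hx⟩ hxM
    obtain ⟨ha, -, -⟩ := hNP hxN
    have h1 := (ha.self_of_nhds).1 hxM
    have h2 : 0 < ρ x := hx
    linarith
  · intro x hxN
    obtain ⟨ha, hb, hc⟩ := hNP hxN
    rcases lt_trichotomy (ρ x) 0 with h | h | h
    · exact Or.inl (Or.inl ⟨hxN, h⟩)
    · right
      refine ⟨subset_closure ((ha.self_of_nhds).2 h.le), ?_⟩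
      intro hxi
      have h1 : ∀ᶠ y in 𝓝 x, y ∈ M := mem_interior_iff_mem_nhds.1 hxi
      have h2 : IsLocalMax ρ x := by
        filter_upwards [ha, h1] with y h3 h4
        rw [h]
        exact h3.1 h4
      rw [h2.fderiv_eq_zero] at hc
      simp at hc
    · exact Or.inl (Or.inr ⟨hxN, h⟩)

end Pool.Agent.T2H72.CK
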