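import Pool.Agent.T2H72.CK.Stm

set_option autoImplicit false

namespace Pool.Agent.T2H72.CK

open Set Filter Topology

namespace PkgLOC

lemma key (g : ℝ × ℝ → ℝ) (ε δ c : ℝ) (hc : |c| < ε) (hδ : 0 < δ)
    (hg : ∀ a, |a| < δ → g (c, a) < 0)
    (hm : ∀ a, |a| < δ → ∀ b, |b| < ε → g (b, a) < 0 → ∀ r ∈ uIcc b c, g (r, a) < 0) :
    IsPreconnected {q : ℝ × ℝ | |q.1| < ε ∧ |q.2| < δ ∧ g q < 0} := by
  apply isPreconnected_of_forall (c, 0)
  rintro ⟨b, a⟩ ⟨hb, ha, hgb⟩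
  simp only at hb ha hgb
  have habs : ∀ r ∈ uIcc b c, |r| < ε := by
    intro r hr
    rw [abs_lt] at *
    rcases mem_uIcc.1 hr with h | h <;> constructor <;> linarith [h.1, h.2, hb.1, hb.2, hc.1, hc.2]
  have habs2 : ∀ r ∈ uIcc a 0, |r| < δ := by
    intro r hr
    rw [abs_lt] at *
    rcases mem_uIcc.1 hr with h | h <;> constructor <;> linarith [h.1, h.2, ha.1, ha.2]
  refine ⟨(fun r => (r, a)) '' uIcc b c ∪ (fun r => (c, r)) '' uIcc a 0, ?_, ?_, ?_, ?_⟩
  · rintro q (⟨r, hr, rfl⟩ | ⟨r, hr, rfl⟩)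
    · exact ⟨habs r hr, ha, hm a ha b hb hgb r hr⟩
    · exact ⟨hc, habs2 r hr, hg r (habs2 r hr)⟩
  · exact Or.inr ⟨0, right_mem_uIcc, rfl⟩
  · exact Or.inl ⟨b, left_mem_uIcc, rfl⟩
  · refine IsPreconnected.union (c, a) ⟨c, right_mem_uIcc, rfl⟩ ⟨a, left_mem_uIcc, rfl⟩ ?_ ?_
    · exact isPreconnected_uIcc.image _ (by fun_prop)
    · exact isPreconnected_uIcc.image _ (by fun_prop)

/-- the chart -/
noncomputable def Ph (p v : ℂ) (q : ℝ × ℝ) : ℂ := p + v * ((q.1 : ℂ) + (q.2 : ℂ) * Complex.I)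

lemma Ph_cont (p v : ℂ) : Continuous (Ph p v) := by
  unfold Ph; fun_prop

lemma Ph_surj {p v : ℂ} (hv : v ≠ 0) (z : ℂ) :
    Ph p v (((z - p) / v).re, ((z - p) / v).im) = z := by
  unfold Ph
  simp only
  rw [Complex.re_add_im, mul_div_cancel₀ _ hv]
  ring

lemma Ph_re {p v : ℂ} (hv : v ≠ 0) (q : ℝ × ℝ) : ((Ph p v q - p) / v) = (q.1 : ℂ) + (q.2 : ℂ) * Complex.I := by
  unfold Ph
  rw [add_sub_cancel_left, mul_div_cancel_left₀ _ hv]

end PkgLOC

open PkgLOC in
theorem pLOC : S_LOC := by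
  intro ρ p v P hρ hp hv hP
  have hv0 : v ≠ 0 := by
    rintro rfl; simp at hv
  -- good neighbourhood
  have h1 : ∀ᶠ x in 𝓝 p, DifferentiableAt ℝ ρ x := by
    have := hρ.eventually (by simp)
    filter_upwards [this] with x hx
    exact hx.differentiableAt (by simp)
  have h2 : ∀ᶠ x in 𝓝 p, fderiv ℝ ρ x v < 0 := by
    have hc : ContinuousAt (fun x => fderiv ℝ ρ x v) p := by
      have h := (hρ.fderiv_right (m := 0) (by simp)).continuousAt
      exact h.clm_apply continuousAt_const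
    exact hc.eventually_lt_const hv
  have h3 : ∀ᶠ x in 𝓝 p, x ∈ P ∧ DifferentiableAt ℝ ρ x ∧ fderiv ℝ ρ x v < 0 :=
    (eventually_mem_set.2 hP).and (h1.and h2)
  have h4 : ∀ᶠ q in 𝓝 ((0, 0) : ℝ × ℝ), Ph p v q ∈ P ∧ DifferentiableAt ℝ ρ (Ph p v q) ∧
      fderiv ℝ ρ (Ph p v q) v < 0 := by
    have : Tendsto (Ph p v) (𝓝 (0, 0)) (𝓝 p) := by
      have := (Ph_cont p v).tendsto (0, 0)
      simpa [Ph] using this
    exact this.eventually h3
  obtain ⟨e, he, hbox⟩ := Metric.eventually_nhds_iff.1 h4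
  set ε := e / 2 with hε
  have hε0 : 0 < ε := by positivity
  have hbox' : ∀ b a : ℝ, |b| ≤ ε → |a| ≤ ε → Ph p v (b, a) ∈ P ∧
      DifferentiableAt ℝ ρ (Ph p v (b, a)) ∧ fderiv ℝ ρ (Ph p v (b, a)) v < 0 := by
    intro b a hb ha
    apply hbox
    rw [Prod.dist_eq, max_lt_iff]
    simp only [dist_zero_right, Real.norm_eq_abs]
    constructor <;> linarith
  -- monotone in the first coordinate
  have hanti : ∀ a : ℝ, |a| ≤ ε → StrictAntiOn (fun b : ℝ => ρ (Ph p v (b, a))) (Icc (-ε) ε) := by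
    intro a ha
    have hder : ∀ b ∈ Icc (-ε) ε, HasDerivAt (fun b : ℝ => ρ (Ph p v (b, a)))
        (fderiv ℝ ρ (Ph p v (b, a)) v) b := by
      intro b hb
      have hd := (hbox' b a (abs_le.2 ⟨hb.1, hb.2⟩) ha).2.1.hasFDerivAt
      have hl : HasDerivAt (fun b : ℝ => Ph p v (b, a)) v b := by
        unfold Ph
        simp only
        have h0 : HasDerivAt (fun b : ℝ => (b : ℂ)) 1 b := Complex.ofRealCLM.hasDerivAt
        have h := ((h0.add_const ((a : ℂ) * Complex.I)).const_mul v).const_add p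
        simpa using h
      exact hd.comp_hasDerivAt b hl
    apply strictAntiOn_of_deriv_neg (convex_Icc _ _)
    · intro b hb
      exact (hder b hb).continuousAt.continuousWithinAt
    · intro b hb
      rw [interior_Icc] at hb
      rw [(hder b ⟨hb.1.le, hb.2.le⟩).deriv]
      exact (hbox' b a (abs_le.2 ⟨hb.1.le, hb.2.le⟩) ha).2.2
  set c := ε / 2 with hcdef
  have hc0 : 0 < c := by positivity
  have hcε : c < ε := by rw [hcdef]; linarith
  have hz : ρ (Ph p v (0, 0)) = 0 := by simpa [Ph] using hp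
  have m0 : (0 : ℝ) ∈ Icc (-ε) ε := ⟨by linarith, hε0.le⟩
  have mc : c ∈ Icc (-ε) ε := ⟨by linarith, hcε.le⟩
  have mc' : -c ∈ Icc (-ε) ε := ⟨by linarith, by linarith⟩
  have hneg : ρ (Ph p v (c, 0)) < 0 := by
    have := hanti 0 (by simpa using hε0.le) m0 mc hc0
    simpa only [hz] using this
  have hpos : 0 < ρ (Ph p v (-c, 0)) := by
    have := hanti 0 (by simpa using hε0.le) mc' m0 (by linarith)
    simpa only [hz] using this
  have hcont : ∀ b : ℝ, |b| ≤ ε → ContinuousAt (fun a : ℝ => ρ (Ph p v (b, a))) 0 := by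
    intro b hb
    have hd := (hbox' b 0 hb (by simpa using hε0.le)).2.1.continuousAt
    exact ContinuousAt.comp (f := fun a : ℝ => Ph p v (b, a)) (g := ρ) hd
      ((Ph_cont p v).comp (by fun_prop : Continuous fun a : ℝ => ((b, a) : ℝ × ℝ))).continuousAt
  have e1 : ∀ᶠ a : ℝ in 𝓝 0, ρ (Ph p v (c, a)) < 0 :=
    (hcont c (by rw [abs_of_pos hc0]; exact hcε.le)).eventually_lt_const hneg
  have e2 : ∀ᶠ a : ℝ in 𝓝 0, 0 < ρ (Ph p v (-c, a)) :=
    (hcont (-c) (by rw [abs_neg, abs_of_pos hc0]; exact hcε.le)).eventually_const_lt hpos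
  obtain ⟨d, hd, hd2⟩ := Metric.eventually_nhds_iff.1 (e1.and e2)
  set δ := min d ε with hδdef
  have hδ0 : 0 < δ := lt_min hd hε0
  have hδε : δ ≤ ε := min_le_right _ _
  have hside : ∀ a : ℝ, |a| < δ → ρ (Ph p v (c, a)) < 0 ∧ 0 < ρ (Ph p v (-c, a)) := by
    intro a ha
    apply hd2
    rw [Real.dist_eq, sub_zero]
    exact lt_of_lt_of_le ha (min_le_left _ _)
  -- the neighbourhood
  set N : Set ℂ := {z | |((z - p) / v).re| < ε ∧ |((z - p) / v).im| < δ} with hN
  have himg : ∀ s : ℝ → Prop, N ∩ {x | s (ρ x)} =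
      Ph p v '' {q : ℝ × ℝ | |q.1| < ε ∧ |q.2| < δ ∧ s (ρ (Ph p v q))} := by
    intro s
    ext z
    constructor
    · rintro ⟨⟨ha, hb⟩, hs⟩
      refine ⟨(((z - p) / v).re, ((z - p) / v).im), ⟨ha, hb, ?_⟩, Ph_surj hv0 z⟩
      rw [Ph_surj hv0 z]; exact hs
    · rintro ⟨q, ⟨ha, hb, hs⟩, rfl⟩
      refine ⟨⟨?_, ?_⟩, hs⟩
      · rw [Ph_re hv0]; simpa using ha
      · rw [Ph_re hv0]; simpa using hb
  refine ⟨N, ?_, ?_, ?_, ?_, ?_, ?_, ?_⟩
  · have c0 : Continuous fun z : ℂ => (z - p) / v := (continuous_id.sub continuous_const).div_const v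
    have c1 : Continuous fun z : ℂ => |((z - p) / v).re| := (Complex.continuous_re.comp c0).abs
    have c2 : Continuous fun z : ℂ => |((z - p) / v).im| := (Complex.continuous_im.comp c0).abs
    exact (isOpen_lt c1 continuous_const).inter (isOpen_lt c2 continuous_const)
  · simp [hN, hε0, hδ0]
  · rintro z ⟨ha, hb⟩
    have := (hbox' _ _ ha.le (hb.le.trans hδε)).1
    rwa [Ph_surj hv0 z] at this
  · rw [himg (fun t => t < 0)]
    apply IsPreconnected.image _ _ (Ph_cont p v).continuousOn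
    apply key (fun q => ρ (Ph p v q)) ε δ c (by rw [abs_of_pos hc0]; exact hcε) hδ0
    · intro a ha; exact (hside a ha).1
    · intro a ha b hb hgb r hr
      have hA := hanti a (ha.le.trans hδε)
      have hb' := abs_lt.1 hb
      have mb : b ∈ Icc (-ε) ε := ⟨hb'.1.le, hb'.2.le⟩
      rcases mem_uIcc.1 hr with h | h
      · have mr : r ∈ Icc (-ε) ε := ⟨by linarith [h.1], by linarith [h.2]⟩
        exact lt_of_le_of_lt (hA.antitoneOn mb mr h.1) hgb
      · have mr : r ∈ Icc (-ε) ε := ⟨by linarith [h.1], by linarith [h.2]⟩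
        exact lt_of_le_of_lt (hA.antitoneOn mc mr h.1) (hside a ha).1
  · rw [himg (fun t => 0 < t)]
    apply IsPreconnected.image _ _ (Ph_cont p v).continuousOn
    have hk := key (fun q => - ρ (Ph p v q)) ε δ (-c)
      (by rw [abs_neg, abs_of_pos hc0]; exact hcε) hδ0
      (by intro a ha; have := (hside a ha).2; simpa using this)
      (by
        intro a ha b hb hgb r hr
        have hA := hanti a (ha.le.trans hδε)
        have hb' := abs_lt.1 hb
        have mb : b ∈ Icc (-ε) ε := ⟨hb'.1.le, hb'.2.le⟩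
        have hgb' : 0 < ρ (Ph p v (b, a)) := by simpa using hgb
        have : 0 < ρ (Ph p v (r, a)) := by
          rcases mem_uIcc.1 hr with h | h
          · have mr : r ∈ Icc (-ε) ε := ⟨by linarith [h.1], by linarith [h.2]⟩
            exact lt_of_lt_of_le (hside a ha).2 (hA.antitoneOn mr mc' h.2)
          · have mr : r ∈ Icc (-ε) ε := ⟨by linarith [h.1], by linarith [h.2]⟩
            exact lt_of_lt_of_le hgb' (hA.antitoneOn mr mb h.2)
        simpa using this)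
    simpa using hk
  · have : ∀ᶠ s : ℝ in 𝓝[>] (0 : ℝ), s ∈ Ioo 0 ε := Ioo_mem_nhdsGT hε0
    filter_upwards [this] with s hs
    have hmem := himg (fun t => t < 0)
    rw [hmem]
    refine ⟨(s, 0), ⟨by rw [abs_of_pos hs.1]; exact hs.2, by simpa using hδ0, ?_⟩, ?_⟩
    · have := hanti 0 (by simpa using hε0.le) m0 ⟨by linarith [hs.1], hs.2.le⟩ hs.1
      simpa only [hz] using this
    · simp [Ph, mul_comm]
  · have : ∀ᶠ s : ℝ in 𝓝[>] (0 : ℝ), s ∈ Ioo 0 ε := Ioo_mem_nhdsGT hε0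
    filter_upwards [this] with s hs
    have hmem := himg (fun t => 0 < t)
    rw [hmem]
    refine ⟨(-s, 0), ⟨by rw [abs_neg, abs_of_pos hs.1]; exact hs.2, by simpa using hδ0, ?_⟩, ?_⟩
    · have := hanti 0 (by simpa using hε0.le) ⟨by linarith [hs.2], by linarith [hs.1]⟩ m0
        (by linarith [hs.1] : -s < 0)
      simpa only [hz] using this
    · simp [Ph, mul_comm]; ring

end Pool.Agent.T2H72.CK
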