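import Pool.Agent.T2H72.CK.Stm

set_option autoImplicit false

namespace Pool.Agent.T2H72.CK

open Set Filter Topology

namespace PkgPRD

theorem leftAnalytic_fst (U : Set Pl) (f : Pl → ℂ × ℂ)
    (hf : LeftAnalytic (A := ℂ × ℂ) ![(1, 1), (Complex.I, 1 + Complex.I)] U f) :
    LeftAnalytic ![1, Complex.I] U (fun x => (f x).1) := by
  refine ⟨fun x hx => (hf.1 x hx).fst, fun x hx => ?_⟩
  have h := congrArg Prod.fst (hf.2 x hx)
  rw [fderiv.fst (hf.1 x hx)]
  simpa using h

theorem leftAnalytic_snd (U : Set Pl) (f : Pl → ℂ × ℂ)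
    (hf : LeftAnalytic (A := ℂ × ℂ) ![(1, 1), (Complex.I, 1 + Complex.I)] U f) :
    LeftAnalytic ![1, 1 + Complex.I] U (fun x => (f x).2) := by
  refine ⟨fun x hx => (hf.1 x hx).snd, fun x hx => ?_⟩
  have h := congrArg Prod.snd (hf.2 x hx)
  rw [fderiv.snd (hf.1 x hx)]
  simpa using h

theorem ker_cont (hANA : S_ANA) (μ : ℂ) (hμ : 0 < μ.im) (γ : ℝ → Pl) (hγ : Continuous γ)
    (x₀ : Pl) (hx : ∀ t, γ t ≠ x₀) : Continuous (fun t => Ker μ (γ t) x₀) := by
  rw [continuous_iff_continuousAt]
  intro t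
  have h := (hANA μ hμ (γ t, x₀) (hx t)).continuousAt
  have h2 : ContinuousAt (fun s : ℝ => ((γ s, x₀) : Pl × Pl)) t :=
    (hγ.continuousAt).prodMk continuousAt_const
  exact ContinuousAt.comp (f := fun s : ℝ => ((γ s, x₀) : Pl × Pl)) h h2

end PkgPRD

open PkgPRD in
theorem pPRD (hSCA : S_SCA) (hANA : S_ANA) : S_PRD := by
  refine ⟨?_, ?_⟩
  · intro U hU f hf M hMU hM n γ hγ x₀ hx₀
    have hI : (0 : ℝ) < Complex.I.im := by simp
    have hI' : (0 : ℝ) < (1 + Complex.I).im := by simp
    have h1 := hSCA Complex.I hI U hU _ (leftAnalytic_fst U f hf) M hMU hM n γ hγ x₀ hx₀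
    have h2 := hSCA (1 + Complex.I) hI' U hU _ (leftAnalytic_snd U f hf) M hMU hM n γ hγ x₀ hx₀
    have hfr : ∀ i t, γ i t ∈ frontier M := by
      intro i t
      rw [← hγ.bd]
      exact mem_iUnion.2 ⟨i, t, rfl⟩
    have hMcl : IsClosed M := hM.1.isClosed
    have hmem : ∀ i t, γ i t ∈ M := fun i t => hMcl.frontier_subset (hfr i t)
    have hne : ∀ i t, γ i t ≠ x₀ := by
      intro i t he
      have h3 := hfr i t
      rw [he] at h3
      exact h3.2 hx₀
    have hc : ∀ i, Continuous (γ i) := fun i => (hγ.smooth i).continuous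
    have hd : ∀ i, Continuous (deriv (γ i)) := fun i =>
      (hγ.smooth i).continuous_deriv (by norm_num)
    have hfc : ∀ i, Continuous (fun t => f (γ i t)) := by
      intro i
      rw [continuous_iff_continuousAt]
      intro t
      exact ContinuousAt.comp (f := γ i) (hf.1 _ (hMU (hmem i t))).continuousAt (hc i).continuousAt
    have hF : ∀ i, Continuous (fun t : ℝ =>
        ((Ker Complex.I (γ i t) x₀, Ker (1 + Complex.I) (γ i t) x₀) : ℂ × ℂ) *
          (-((deriv (γ i) t).2 • (![(1, 1), (Complex.I, 1 + Complex.I)] : Fin 2 → ℂ × ℂ) 0) +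
            (deriv (γ i) t).1 • (![(1, 1), (Complex.I, 1 + Complex.I)] : Fin 2 → ℂ × ℂ) 1) *
          f (γ i t)) := by
      intro i
      have k1 := ker_cont hANA Complex.I hI (γ i) (hc i) x₀ (hne i)
      have k2 := ker_cont hANA (1 + Complex.I) hI' (γ i) (hc i) x₀ (hne i)
      have k3 := hfc i
      have k4 := (hd i).fst
      have k5 := (hd i).snd
      exact ((k1.prodMk k2).mul ((k5.smul continuous_const).neg.add (k4.smul continuous_const))).mul k3
    refine Prod.ext ?_ ?_
    · rw [Prod.fst_sum]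
      refine h1.trans (Finset.sum_congr rfl fun i _ => ?_)
      have h4 := (ContinuousLinearMap.fst ℝ ℂ ℂ).intervalIntegral_comp_comm
        (μ := MeasureTheory.volume) ((hF i).intervalIntegrable 0 1)
      simp only [ContinuousLinearMap.coe_fst'] at h4
      rw [← h4]
      refine intervalIntegral.integral_congr fun t _ => ?_
      simp
    · rw [Prod.snd_sum]
      refine h2.trans (Finset.sum_congr rfl fun i _ => ?_)
      have h4 := (ContinuousLinearMap.snd ℝ ℂ ℂ).intervalIntegral_comp_comm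
        (μ := MeasureTheory.volume) ((hF i).intervalIntegrable 0 1)
      simp only [ContinuousLinearMap.coe_snd'] at h4
      rw [← h4]
      refine intervalIntegral.integral_congr fun t _ => ?_
      simp
  · exact (hANA Complex.I (by simp)).prod (hANA (1 + Complex.I) (by simp))

end Pool.Agent.T2H72.CK
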