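import Pool.Agent.T2H72.CK.Stm

set_option autoImplicit false

namespace Pool.Agent.T2H72.CK

open Set Filter Topology

namespace PkgSCA

theorem hasDerivAt_L (μ : ℂ) {γ : ℝ → Pl} {t : ℝ} {v : Pl} (h : HasDerivAt γ v t) :
    HasDerivAt (fun t => L μ (γ t)) (L μ v) t := by
  have h1 : HasDerivAt (fun t => (γ t).1) v.1 t := h.fst
  have h2 : HasDerivAt (fun t => (γ t).2) v.2 t := h.snd
  have h3 := h1.ofReal_comp
  have h4 := h2.ofReal_comp
  exact h3.sub (h4.div_const μ)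

theorem integrand {μ : ℂ} (hμ : μ ≠ 0) (v x x₀ : Pl) (w : ℂ) :
    Ker μ x x₀ * (-(v.2 • (1 : ℂ)) + v.1 • μ) * w =
      (2 * Real.pi * Complex.I)⁻¹ * (w * L μ v / (L μ x - L μ x₀)) := by
  unfold Ker
  have e1 : (-(v.2 • (1 : ℂ)) + v.1 • μ) = μ * L μ v := by
    unfold L
    rw [mul_sub, mul_div_cancel₀ _ hμ, Complex.real_smul, Complex.real_smul]
    ring
  rw [e1, one_div, mul_inv, mul_inv, div_eq_mul_inv]
  have e2 : μ⁻¹ * μ = 1 := inv_mul_cancel₀ hμ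
  calc (2 * (Real.pi : ℂ) * Complex.I)⁻¹ * μ⁻¹ * (L μ x - L μ x₀)⁻¹ * (μ * L μ v) * w
      = (μ⁻¹ * μ) * ((2 * (Real.pi : ℂ) * Complex.I)⁻¹ * (w * L μ v * (L μ x - L μ x₀)⁻¹)) := by
        ring
    _ = _ := by rw [e2, one_mul]

end PkgSCA

theorem pSCA (hDIX : S_DIX) (hTRF : S_TRF) (hHOL : S_HOL) : S_SCA := by
  intro μ hμ U hU f hf M hMU hM n γ hγ x₀ hx₀
  have hμ0 : μ ≠ 0 := by
    rintro rfl
    simp at hμ
  obtain ⟨hUo, g, hg, hgf⟩ := hHOL μ hμ U f hU hf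
  have hin : IsOpen (L μ '' interior M) := by
    have hsub : interior M ⊆ U := interior_subset.trans hMU
    exact (hHOL μ hμ (interior M) f isOpen_interior
      ⟨fun x hx => hf.1 x (hsub hx), fun x hx => hf.2 x (hsub hx)⟩).1
  have hD := hTRF μ hμ M hM n γ hγ
  have hz : L μ x₀ ∈ interior (L μ '' M) :=
    interior_maximal (image_mono interior_subset) hin (mem_image_of_mem _ hx₀)
  have key := hDIX (L μ '' M) n (fun i t => L μ (γ i t)) hD (L μ '' U) g hUo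
    (image_mono hMU) hg (L μ x₀) hz
  have hpi : (2 * (Real.pi : ℂ) * Complex.I) ≠ 0 := Complex.two_pi_I_ne_zero
  have hint : ∀ i, (∫ t in (0 : ℝ)..1,
      Ker μ (γ i t) x₀ * (-((deriv (γ i) t).2 • (![1, μ] : Fin 2 → ℂ) 0) +
        (deriv (γ i) t).1 • (![1, μ] : Fin 2 → ℂ) 1) * f (γ i t)) =
      (2 * (Real.pi : ℂ) * Complex.I)⁻¹ * ∫ t in (0 : ℝ)..1,
        g (L μ (γ i t)) * deriv (fun t => L μ (γ i t)) t / (L μ (γ i t) - L μ x₀) := by
    intro i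
    rw [← intervalIntegral.integral_const_mul]
    congr 1
    funext t
    have hd : HasDerivAt (γ i) (deriv (γ i) t) t :=
      ((hγ.smooth i).differentiable (by simp)).differentiableAt.hasDerivAt
    have hd2 : deriv (fun t => L μ (γ i t)) t = L μ (deriv (γ i) t) :=
      (PkgSCA.hasDerivAt_L μ hd).deriv
    rw [hd2, hgf]
    have := PkgSCA.integrand hμ0 (deriv (γ i) t) (γ i t) x₀ (f (γ i t))
    simpa using this
  have hsum : (∑ i, ∫ t in (0 : ℝ)..1,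
      Ker μ (γ i t) x₀ * (-((deriv (γ i) t).2 • (![1, μ] : Fin 2 → ℂ) 0) +
        (deriv (γ i) t).1 • (![1, μ] : Fin 2 → ℂ) 1) * f (γ i t)) =
      (2 * (Real.pi : ℂ) * Complex.I)⁻¹ * (2 * Real.pi * Complex.I * g (L μ x₀)) := by
    rw [← key, Finset.mul_sum]
    exact Finset.sum_congr rfl fun i _ => hint i
  rw [hsum, hgf, ← mul_assoc, inv_mul_cancel₀ hpi, one_mul]

end Pool.Agent.T2H72.CK
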