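import Pool.Agent.T2H72.CK.Stm

set_option autoImplicit false

namespace Pool.Agent.T2H72.CK

open Set Filter Topology

namespace PkgTRF

/-- `λ = -1/μ` -/
noncomputable def lam (μ : ℂ) : ℂ := -(1 / μ)

theorem lam_im {μ : ℂ} (h : 0 < μ.im) : 0 < (lam μ).im := by
  unfold lam
  rw [one_div, Complex.neg_im, Complex.inv_im]
  have : 0 < Complex.normSq μ := Complex.normSq_pos.2 (by rintro rfl; simp at h)
  rw [neg_div, neg_neg]
  positivity

theorem L_eq (μ : ℂ) (x : Pl) : L μ x = ⟨x.1 + x.2 * (lam μ).re, x.2 * (lam μ).im⟩ := by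
  unfold L lam
  have h : (x.1 : ℂ) - x.2 / μ = x.1 + x.2 * (-(1 / μ)) := by ring
  rw [h]
  apply Complex.ext <;> simp

/-- the linear isomorphism `L μ` -/
noncomputable def E (μ : ℂ) (h : 0 < μ.im) : Pl ≃L[ℝ] ℂ :=
  LinearEquiv.toContinuousLinearEquiv
    { toFun := L μ
      map_add' := by
        intro x y
        unfold L
        push_cast [Prod.fst_add, Prod.snd_add]
        ring
      map_smul' := by
        intro c x
        unfold L
        simp only [Prod.smul_fst, Prod.smul_snd, smul_eq_mul, Complex.ofReal_mul, RingHom.id_apply,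
          Complex.real_smul]
        ring
      invFun := fun w => (w.re - w.im / (lam μ).im * (lam μ).re, w.im / (lam μ).im)
      left_inv := by
        intro x
        have := (lam_im h).ne'
        simp only [L_eq]
        ext
        · simp only
          field_simp
          ring
        · simp only
          field_simp
      right_inv := by
        intro w
        have := (lam_im h).ne'
        simp only [L_eq]
        apply Complex.ext
        · simp only
          ring
        · simp only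
          field_simp }

theorem E_apply (μ : ℂ) (h : 0 < μ.im) (x : Pl) : E μ h x = L μ x := rfl

theorem E_symm (μ : ℂ) (h : 0 < μ.im) (w : ℂ) :
    (E μ h).symm w = (w.re - w.im / (lam μ).im * (lam μ).re, w.im / (lam μ).im) := rfl

theorem frontier_zero {M : Set Pl} (hM : IsClosed M) {ρ : Pl → ℝ} {p : Pl} (hc : ContDiffAt ℝ 1 ρ p)
    (hl : ∀ᶠ x in 𝓝 p, (x ∈ M ↔ ρ x ≤ 0)) : ∀ᶠ x in 𝓝 p, x ∈ frontier M → ρ x = 0 := by
  have h1 : ∀ᶠ x in 𝓝 p, ContDiffAt ℝ 1 ρ x := hc.eventually (by simp)
  have h2 := hl.eventually_nhds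
  filter_upwards [h1, h2] with x hx1 hx2 hxf
  have hxM : x ∈ M := hM.frontier_subset hxf
  have hle : ρ x ≤ 0 := hx2.self_of_nhds.1 hxM
  by_contra hne
  have hlt : ρ x < 0 := lt_of_le_of_ne hle hne
  have h3 : ∀ᶠ y in 𝓝 x, ρ y < 0 := hx1.continuousAt.eventually (gt_mem_nhds hlt)
  have h4 : M ∈ 𝓝 x := by
    filter_upwards [hx2, h3] with y h5 h6
    exact h5.2 h6.le
  exact hxf.2 (mem_interior_iff_mem_nhds.2 h4)

/-- the derivative along the curve is zero -/
theorem deriv_zero {M : Set Pl} (hM : IsClosed M) {ρ : Pl → ℝ} {g : ℝ → Pl} {t : ℝ}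
    (hg : DifferentiableAt ℝ g t) (hf : ∀ s, g s ∈ frontier M) (hc : ContDiffAt ℝ 1 ρ (g t))
    (hl : ∀ᶠ x in 𝓝 (g t), (x ∈ M ↔ ρ x ≤ 0)) : fderiv ℝ ρ (g t) (deriv g t) = 0 := by
  have h1 : ∀ᶠ s in 𝓝 t, ρ (g s) = 0 := by
    have := hg.continuousAt.eventually (frontier_zero hM hc hl)
    filter_upwards [this] with s hs
    exact hs (hf s)
  have hd : HasFDerivAt ρ (fderiv ℝ ρ (g t)) (g t) :=
    (hc.differentiableAt (by simp)).hasFDerivAt
  have h2 : HasDerivAt (fun s => ρ (g s)) (fderiv ℝ ρ (g t) (deriv g t)) t :=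
    hd.comp_hasDerivAt t hg.hasDerivAt
  have h3 : HasDerivAt (fun s => ρ (g s)) 0 t :=
    (hasDerivAt_const t (0 : ℝ)).congr_of_eventuallyEq h1
  exact h2.unique h3

/-- the derivative towards the domain is nonpositive -/
theorem deriv_le {M : Set Pl} {ρ : Pl → ℝ} {p v : Pl} (hc : ContDiffAt ℝ 1 ρ p) (h0 : ρ p = 0)
    (hl : ∀ᶠ x in 𝓝 p, (x ∈ M ↔ ρ x ≤ 0))
    (hv : ∀ᶠ s in 𝓝[>] (0 : ℝ), p + s • v ∈ M) : fderiv ℝ ρ p v ≤ 0 := by
  have hd : HasFDerivAt ρ (fderiv ℝ ρ p) p := (hc.differentiableAt (by simp)).hasFDerivAt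
  have hline : HasDerivAt (fun s : ℝ => p + s • v) v 0 := by
    have := ((hasDerivAt_id (0 : ℝ)).smul_const v).const_add p
    simpa using this
  have h2 : HasDerivAt (fun s : ℝ => ρ (p + s • v)) (fderiv ℝ ρ p v) 0 := by
    have hd' : HasFDerivAt ρ (fderiv ℝ ρ p) (p + (0 : ℝ) • v) := by simpa using hd
    exact hd'.comp_hasDerivAt 0 hline
  have h3 : Tendsto (slope (fun s : ℝ => ρ (p + s • v)) 0) (𝓝[>] 0) (𝓝 (fderiv ℝ ρ p v)) := by
    have := h2.hasDerivWithinAt (s := Ioi 0)
    rw [hasDerivWithinAt_iff_tendsto_slope' (by simp)] at this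
    exact this
  have h4 : ∀ᶠ s in 𝓝[>] (0 : ℝ), (p + s • v ∈ M ↔ ρ (p + s • v) ≤ 0) := by
    have h5 : Tendsto (fun s : ℝ => p + s • v) (𝓝[>] 0) (𝓝 p) := by
      have := hline.continuousAt.tendsto
      simp only [zero_smul, add_zero] at this
      exact this.mono_left nhdsWithin_le_nhds
    exact h5.eventually hl
  apply le_of_tendsto h3
  filter_upwards [h4, hv, self_mem_nhdsWithin] with s h5 h6 h7
  have h7' : (0 : ℝ) < s := h7
  have h8 := h5.1 h6
  rw [slope_def_field]
  simp only [zero_smul, add_zero, h0, sub_zero]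
  exact div_nonpos_of_nonpos_of_nonneg h8 h7'.le

end PkgTRF

open PkgTRF in
theorem pTRF : S_TRF := by
  intro μ hμ M hM n γ hγ
  have hE : ∀ x, L μ x = E μ hμ x := fun x => rfl
  have hcl : IsClosed M := hM.1.isClosed
  have himg : L μ '' M = E μ hμ '' M := rfl
  have hder : ∀ i t, deriv (fun t => L μ (γ i t)) t = E μ hμ (deriv (γ i) t) := by
    intro i t
    have h1 : HasDerivAt (γ i) (deriv (γ i) t) t :=
      ((hγ.smooth i).differentiable (by simp)).differentiableAt.hasDerivAt
    have h2 := (E μ hμ).toContinuousLinearMap.hasFDerivAt.comp_hasDerivAt t h1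
    exact h2.deriv
  have hfr : ∀ i s, γ i s ∈ frontier M := by
    intro i s
    rw [← hγ.bd]
    exact mem_iUnion.2 ⟨i, mem_range_self s⟩
  refine ⟨?_, ?_, ?_, ?_, ?_, ?_⟩
  · rw [himg]
    exact hM.1.image (E μ hμ).continuous
  · intro i
    exact (E μ hμ).contDiff.comp ((hγ.smooth i).of_le (by simp))
  · intro i t
    show L μ (γ i (t + 1)) = L μ (γ i t)
    rw [hγ.per]
  · intro i j s t h
    exact hγ.inj i j s t ((E μ hμ).injective h)
  · rw [himg]
    have h1 : frontier (E μ hμ '' M) = E μ hμ '' frontier M :=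
      ((E μ hμ).toHomeomorph.image_frontier M).symm
    rw [h1, ← hγ.bd, image_iUnion]
    apply iUnion_congr
    intro i
    rw [← range_comp]
    rfl
  · intro i t
    obtain ⟨ρ, hρ1, hρ2, hρ3⟩ := hM.2 (γ i t) (hfr i t)
    have hρ1' : ContDiffAt ℝ 1 ρ (γ i t) := hρ1.of_le (by simp)
    have h0 : ρ (γ i t) = 0 := (frontier_zero hcl hρ1' hρ3).self_of_nhds (hfr i t)
    have hdz := deriv_zero hcl ((hγ.smooth i).differentiable (by simp)).differentiableAt (hfr i)
      hρ1' hρ3
    have hdl := deriv_le hρ1' h0 hρ3 (hγ.left i t)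
    have hreg := hγ.reg i t
    set T := deriv (γ i) t with hT
    set ℓ := fderiv ℝ ρ (γ i t) with hℓ
    have hN : 0 < T.1 ^ 2 + T.2 ^ 2 := by
      rcases eq_or_ne T.1 0 with h | h
      · have : T.2 ≠ 0 := fun h' => hreg (Prod.ext h h')
        positivity
      · positivity
    have hlt : ℓ (-T.2, T.1) < 0 := by
      rcases hdl.lt_or_eq with h | h
      · exact h
      · exfalso
        apply hρ2
        refine ContinuousLinearMap.ext fun v => ?_
        have hv : v = ((v.1 * T.1 + v.2 * T.2) / (T.1 ^ 2 + T.2 ^ 2)) • T +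
            ((v.2 * T.1 - v.1 * T.2) / (T.1 ^ 2 + T.2 ^ 2)) • ((-T.2, T.1) : Pl) := by
          ext
          · simp only [Prod.fst_add, Prod.smul_fst, smul_eq_mul]
            field_simp
            ring
          · simp only [Prod.snd_add, Prod.smul_snd, smul_eq_mul]
            field_simp
            ring
        rw [hv, map_add, map_smul, map_smul, hdz, h]
        simp
    have hs : (E μ hμ).symm (L μ (γ i t)) = γ i t := (E μ hμ).symm_apply_apply _
    refine ⟨fun w => ρ ((E μ hμ).symm w), ?_, ?_, ?_⟩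
    · have h1 : ContDiffAt ℝ 1 ρ ((E μ hμ).symm (L μ (γ i t))) := by
        rw [hs]
        exact hρ1'
      exact h1.comp _ (E μ hμ).symm.contDiff.contDiffAt
    · have ht : Tendsto (E μ hμ).symm (𝓝 (L μ (γ i t))) (𝓝 (γ i t)) := by
        have h1 := (E μ hμ).symm.continuous.tendsto (L μ (γ i t))
        rwa [hs] at h1
      filter_upwards [ht.eventually hρ3] with w hw
      rw [← hw]
      constructor
      · rintro ⟨x, hx, rfl⟩
        have h1 : (E μ hμ).symm (L μ x) = x := (E μ hμ).symm_apply_apply _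
        rwa [h1]
      · intro hx
        exact ⟨_, hx, (E μ hμ).apply_symm_apply w⟩
    · have hd : HasFDerivAt ρ ℓ ((E μ hμ).symm (L μ (γ i t))) := by
        rw [hs]
        exact (hρ1'.differentiableAt (by simp)).hasFDerivAt
      have hd2 : HasFDerivAt (fun w => ρ ((E μ hμ).symm w))
          (ℓ.comp (E μ hμ).symm.toContinuousLinearMap) (L μ (γ i t)) :=
        hd.comp (L μ (γ i t)) (E μ hμ).symm.toContinuousLinearMap.hasFDerivAt
      rw [hd2.fderiv, hder]
      show ℓ ((E μ hμ).symm (Complex.I * L μ T)) < 0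
      have hlam := lam_im hμ
      have hb : (E μ hμ).symm (Complex.I * L μ T) =
          (((-(T.2 * (lam μ).im) - (T.1 + T.2 * (lam μ).re) / (lam μ).im * (lam μ).re) * T.1 +
            (T.1 + T.2 * (lam μ).re) / (lam μ).im * T.2) / (T.1 ^ 2 + T.2 ^ 2)) • T +
          (((T.1 + T.2 * (lam μ).re) ^ 2 + (T.2 * (lam μ).im) ^ 2) /
            ((lam μ).im * (T.1 ^ 2 + T.2 ^ 2))) • ((-T.2, T.1) : Pl) := by
        rw [E_symm, L_eq]
        ext
        · simp only [Prod.fst_add, Prod.smul_fst, smul_eq_mul, Complex.mul_re, Complex.mul_im,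
            Complex.I_re, Complex.I_im]
          field_simp
          ring
        · simp only [Prod.snd_add, Prod.smul_snd, smul_eq_mul, Complex.mul_re, Complex.mul_im,
            Complex.I_re, Complex.I_im]
          field_simp
          ring
      rw [hb, map_add, map_smul, map_smul, hdz, smul_zero, zero_add, smul_eq_mul]
      apply mul_neg_of_pos_of_neg _ hlt
      apply div_pos _ (by positivity)
      rcases eq_or_ne T.2 0 with h | h
      · have h1 : T.1 ≠ 0 := fun h' => hreg (Prod.ext h' h)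
        rw [h]
        have : 0 < T.1 ^ 2 := by positivity
        simpa using this
      · have h1 : 0 < (T.2 * (lam μ).im) ^ 2 := by
          have := mul_ne_zero h hlam.ne'
          positivity
        have h2 : 0 ≤ (T.1 + T.2 * (lam μ).re) ^ 2 := sq_nonneg _
        linarith

end Pool.Agent.T2H72.CK
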