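import Pool.Agent.T2H72.CK.Stm

/-!
# Package WIN: the winding function of the boundary
-/

set_option autoImplicit false

namespace Pool.Agent.T2H72.CK

open Set Filter Topology

namespace PkgWIN

theorem deriv_ne {M : Set ℂ} {n : ℕ} {γ : Fin n → ℝ → ℂ} (h : Dom M γ) (i : Fin n) (t : ℝ) :
    deriv (γ i) t ≠ 0 := by
  obtain ⟨ρ, -, -, h3⟩ := h.loc i t
  intro h0
  rw [h0, mul_zero, map_zero] at h3
  exact lt_irrefl _ h3

theorem cderiv {M : Set ℂ} {n : ℕ} {γ : Fin n → ℝ → ℂ} (h : Dom M γ) (i : Fin n) :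
    Continuous (deriv (γ i)) := (h.smooth i).continuous_deriv le_rfl

theorem closed_range {γ : ℝ → ℂ} (hγ : Continuous γ) (hper : ∀ t, γ (t + 1) = γ t) :
    IsClosed (range γ) := by
  have h1 : range γ = γ '' Icc 0 1 := by
    apply Subset.antisymm
    · rintro _ ⟨t, rfl⟩
      refine ⟨Int.fract t, ⟨Int.fract_nonneg t, (Int.fract_lt_one t).le⟩, ?_⟩
      have hp : Function.Periodic γ 1 := hper
      have h2 := hp.sub_int_mul_eq (x := t) ⌊t⌋
      rw [mul_one] at h2
      exact h2
    · exact image_subset_range _ _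
  rw [h1]
  exact (isCompact_Icc.image hγ).isClosed

/-- the Cauchy integrals of the other curves are continuous at a point of the curve `i` -/
theorem cont_other (hDX : S_DX2) {M : Set ℂ} {n : ℕ} {γ : Fin n → ℝ → ℂ} (h : Dom M γ)
    {i j : Fin n} (hij : j ≠ i) (t : ℝ) :
    ContinuousAt (fun z : ℂ => ∫ s in (0 : ℝ)..1, deriv (γ j) s / (γ j s - z)) (γ i t) := by
  have hc : Continuous (γ j) := (h.smooth j).continuous
  have h1 := hDX (γ j) (deriv (γ j)) hc (cderiv h j) (h.per j)
  have hopen : IsOpen (range (γ j))ᶜ := (closed_range hc (h.per j)).isOpen_compl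
  have hmem : γ i t ∈ (range (γ j))ᶜ := by
    rintro ⟨s, hs⟩
    exact hij (h.inj j i s t hs).1
  exact (h1.differentiableAt (hopen.mem_nhds hmem)).continuousAt

theorem jump (hJ : S_JMP) (hDX : S_DX2) {M : Set ℂ} {n : ℕ} {γ : Fin n → ℝ → ℂ} (h : Dom M γ)
    (i : Fin n) (t : ℝ) :
    Tendsto (fun s : ℝ => Wd γ (γ i t + s * (Complex.I * deriv (γ i) t)) -
      Wd γ (γ i t - s * (Complex.I * deriv (γ i) t))) (𝓝[>] (0 : ℝ))
      (𝓝 (2 * Real.pi * Complex.I)) := by
  classical
  have hplus : Tendsto (fun s : ℝ => γ i t + s * (Complex.I * deriv (γ i) t)) (𝓝[>] (0 : ℝ))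
      (𝓝 (γ i t)) := by
    have h1 : Continuous (fun s : ℝ => γ i t + s * (Complex.I * deriv (γ i) t)) := by fun_prop
    have h2 := h1.tendsto 0
    rw [Complex.ofReal_zero, zero_mul, add_zero] at h2
    exact h2.mono_left nhdsWithin_le_nhds
  have hminus : Tendsto (fun s : ℝ => γ i t - s * (Complex.I * deriv (γ i) t)) (𝓝[>] (0 : ℝ))
      (𝓝 (γ i t)) := by
    have h1 : Continuous (fun s : ℝ => γ i t - s * (Complex.I * deriv (γ i) t)) := by fun_prop
    have h2 := h1.tendsto 0
    rw [Complex.ofReal_zero, zero_mul, sub_zero] at h2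
    exact h2.mono_left nhdsWithin_le_nhds
  have hsum : Tendsto (fun s : ℝ => ∑ j, ((∫ u in (0 : ℝ)..1, deriv (γ j) u /
        (γ j u - (γ i t + s * (Complex.I * deriv (γ i) t)))) -
      ∫ u in (0 : ℝ)..1, deriv (γ j) u / (γ j u - (γ i t - s * (Complex.I * deriv (γ i) t)))))
      (𝓝[>] (0 : ℝ)) (𝓝 (∑ j, if j = i then 2 * Real.pi * Complex.I else 0)) := by
    apply tendsto_finset_sum
    intro j _
    split_ifs with hji
    · subst hji
      exact hJ (γ j) t (h.smooth j) (h.per j) (fun s u hsu => (h.inj j j s u hsu).2)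
        (deriv_ne h j t)
    · have hcont := cont_other hDX h hji t
      have h1 := (hcont.tendsto.comp hplus).sub (hcont.tendsto.comp hminus)
      rw [sub_self] at h1
      exact h1
  rw [Finset.sum_ite_eq' Finset.univ i] at hsum
  simp only [Finset.mem_univ, if_true] at hsum
  refine hsum.congr ?_
  intro s
  unfold Wd
  rw [Finset.sum_sub_distrib]

end PkgWIN

open PkgWIN in
theorem pWIN (hWLC : S_WLC) (hINF : S_INF) (hJMP : S_JMP) (hLC2 : S_LC2) (hDX2 : S_DX2) :
    S_WIN := by
  intro M n γ h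
  classical
  have hMc : IsClosed M := h.cpt.isClosed
  have hFrM : frontier M ⊆ M := hMc.frontier_subset
  have hint : interior M ⊆ (frontier M)ᶜ := by
    intro x hx hf
    exact (disjoint_left.mp disjoint_interior_frontier) hx hf
  have hout : Mᶜ ⊆ (frontier M)ᶜ := compl_subset_compl.mpr hFrM
  set F : ℂ → ℂ := fun z => Wd γ z - (if z ∈ M then 2 * Real.pi * Complex.I else 0) with hF
  -- local constancy
  have hloc : ∀ z : ℂ, ∃ (N : Set ℂ) (c : ℂ), IsOpen N ∧ z ∈ N ∧
      ∀ x ∈ N, x ∉ frontier M → F x = c := by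
    intro z
    by_cases hz : z ∈ frontier M
    · rw [← h.bd] at hz
      obtain ⟨i, hi⟩ := mem_iUnion.mp hz
      obtain ⟨t, rfl⟩ := hi
      obtain ⟨N, C₁, C₂, hN, hpN, hC₁, hC₂, hC₁M, hC₂M, hNC, hs₁, hs₂⟩ := hLC2 M n γ h i t
      have hcc : ∀ x ∈ C₁, ∀ y ∈ C₂, Wd γ x - Wd γ y = 2 * Real.pi * Complex.I := by
        intro x hx y hy
        have hev : ∀ᶠ s : ℝ in 𝓝[>] (0 : ℝ),
            Wd γ (γ i t + s * (Complex.I * deriv (γ i) t)) -
              Wd γ (γ i t - s * (Complex.I * deriv (γ i) t)) = Wd γ x - Wd γ y := by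
          filter_upwards [hs₁, hs₂] with s h1 h2
          rw [hWLC M n γ h C₁ hC₁ (hC₁M.trans hint) _ h1 x hx,
            hWLC M n γ h C₂ hC₂ (hC₂M.trans hout) _ h2 y hy]
        exact tendsto_nhds_unique (tendsto_const_nhds.congr' (hev.mono fun _ hs => hs.symm))
          (jump hJMP hDX2 h i t)
      obtain ⟨s₁, hs₁'⟩ := hs₁.exists
      refine ⟨N, F (γ i t + s₁ * (Complex.I * deriv (γ i) t)), hN, hpN, ?_⟩
      set x₁ := γ i t + s₁ * (Complex.I * deriv (γ i) t) with hx₁
      have hx₁M : x₁ ∈ M := interior_subset (hC₁M hs₁')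
      intro x hx hxF
      rcases hNC hx with (hx1 | hx2) | hx3
      · have hxM : x ∈ M := interior_subset (hC₁M hx1)
        rw [hF]
        simp only
        rw [if_pos hxM, if_pos hx₁M, hWLC M n γ h C₁ hC₁ (hC₁M.trans hint) _ hx1 x₁ hs₁']
      · have hxM : x ∉ M := hC₂M hx2
        rw [hF]
        simp only
        rw [if_neg hxM, if_pos hx₁M, ← hcc x₁ hs₁' x hx2]
        ring
      · exact absurd hx3 hxF
    · by_cases hzM : z ∈ M
      · have hzi : z ∈ interior M := by
          by_contra hcon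
          apply hz
          rw [hMc.frontier_eq]
          exact ⟨hzM, hcon⟩
        obtain ⟨r, hr, hrb⟩ := Metric.isOpen_iff.mp isOpen_interior z hzi
        refine ⟨Metric.ball z r, F z, Metric.isOpen_ball, Metric.mem_ball_self hr, ?_⟩
        intro x hx _
        have h1 := hWLC M n γ h (Metric.ball z r) (convex_ball z r).isPreconnected
          (hrb.trans hint) x hx z (Metric.mem_ball_self hr)
        rw [hF]
        simp only
        rw [if_pos (interior_subset (hrb hx)), if_pos hzM, h1]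
      · obtain ⟨r, hr, hrb⟩ := Metric.isOpen_iff.mp hMc.isOpen_compl z hzM
        refine ⟨Metric.ball z r, F z, Metric.isOpen_ball, Metric.mem_ball_self hr, ?_⟩
        intro x hx _
        have h1 := hWLC M n γ h (Metric.ball z r) (convex_ball z r).isPreconnected
          (hrb.trans hout) x hx z (Metric.mem_ball_self hr)
        rw [hF]
        simp only
        rw [if_neg (hrb hx), if_neg hzM, h1]
  -- the complement of the frontier is dense
  have hdense : ∀ N : Set ℂ, IsOpen N → ∀ z ∈ N, ∃ x ∈ N, x ∉ frontier M := by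
    intro N hN z hz
    by_cases hzF : z ∈ frontier M
    · have hzF' := hzF
      rw [← h.bd] at hzF'
      obtain ⟨i, hi⟩ := mem_iUnion.mp hzF'
      obtain ⟨t, rfl⟩ := hi
      obtain ⟨-, C₁, -, -, -, -, -, hC₁M, -, -, hs₁, -⟩ := hLC2 M n γ h i t
      have hplus : Tendsto (fun s : ℝ => γ i t + s * (Complex.I * deriv (γ i) t)) (𝓝[>] (0 : ℝ))
          (𝓝 (γ i t)) := by
        have h1 : Continuous (fun s : ℝ => γ i t + s * (Complex.I * deriv (γ i) t)) := by fun_prop
        have h2 := h1.tendsto 0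
        rw [Complex.ofReal_zero, zero_mul, add_zero] at h2
        exact h2.mono_left nhdsWithin_le_nhds
      obtain ⟨s, h1, h2⟩ := (hs₁.and (hplus.eventually (hN.mem_nhds hz))).exists
      exact ⟨_, h2, hint (hC₁M h1)⟩
    · exact ⟨z, hz, hzF⟩
  choose N c hNo hzN hNc using hloc
  have hlc : IsLocallyConstant c := by
    rw [IsLocallyConstant.iff_exists_open]
    intro z
    refine ⟨N z, hNo z, hzN z, ?_⟩
    intro z' hz'
    obtain ⟨x, hx, hxF⟩ := hdense (N z ∩ N z') ((hNo z).inter (hNo z')) z' ⟨hz', hzN z'⟩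
    rw [← hNc z x hx.1 hxF, ← hNc z' x hx.2 hxF]
  have hall : ∀ x, x ∉ frontier M → F x = c 0 := by
    intro x hx
    rw [hNc x x (hzN x) hx]
    exact hlc.apply_eq_of_preconnectedSpace x 0
  have hzero : c 0 = 0 := by
    have h1 : Tendsto (fun z : ℂ => Wd γ z) (cocompact ℂ) (𝓝 0) := by
      have h2 : Tendsto (fun z : ℂ => ∑ i, ∫ t in (0 : ℝ)..1, deriv (γ i) t / (γ i t - z))
          (cocompact ℂ) (𝓝 (∑ _i : Fin n, 0)) := by
        apply tendsto_finset_sum
        intro i _
        exact hINF (γ i) (deriv (γ i)) (h.smooth i).continuous (cderiv h i)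
      rw [Finset.sum_const_zero] at h2
      exact h2
    have h3 : ∀ᶠ z in cocompact ℂ, Wd γ z = c 0 := by
      filter_upwards [h.cpt.compl_mem_cocompact] with z hz
      have h4 := hall z (hout hz)
      rw [hF] at h4
      simp only at h4
      rw [if_neg hz, sub_zero] at h4
      exact h4
    exact tendsto_nhds_unique (tendsto_const_nhds.congr' (h3.mono fun _ hs => hs.symm)) h1
  constructor
  · intro z hz
    have h1 := hall z (hint hz)
    rw [hzero, hF] at h1
    simp only at h1
    rw [if_pos (interior_subset hz)] at h1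
    exact sub_eq_zero.mp h1
  · intro z hz
    have h1 := hall z (hout hz)
    rw [hzero, hF] at h1
    simp only at h1
    rw [if_neg hz, sub_zero] at h1
    exact h1

end Pool.Agent.T2H72.CK
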