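import Pool.Agent.T2H72.CK.Stm

/-! Package WLC: the winding function is constant on connected sets off the boundary. -/

set_option autoImplicit false

namespace Pool.Agent.T2H72.CK

open Set Filter Topology MeasureTheory

namespace PkgWLC

theorem hasDeriv (γ : ℝ → ℂ) (hγ : ContDiff ℝ 1 γ) (hper : γ 1 = γ 0) (z₀ : ℂ)
    (h : ∀ t, γ t ≠ z₀) :
    HasDerivAt (fun z : ℂ => ∫ t in (0 : ℝ)..1, deriv γ t / (γ t - z)) 0 z₀ := by
  have hc : Continuous γ := hγ.continuous
  have hd : Continuous (deriv γ) := hγ.continuous_deriv le_rfl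
  -- distance
  obtain ⟨δ, hδ, hδt⟩ : ∃ δ : ℝ, 0 < δ ∧ ∀ t ∈ Icc (0:ℝ) 1, 2 * δ ≤ ‖γ t - z₀‖ := by
    obtain ⟨t₁, ht₁, hmin⟩ := (isCompact_Icc (a := (0:ℝ)) (b := 1)).exists_isMinOn
      ⟨0, by norm_num⟩ (f := fun t => ‖γ t - z₀‖) ((hc.sub continuous_const).norm.continuousOn)
    have hp : 0 < ‖γ t₁ - z₀‖ := norm_pos_iff.mpr (sub_ne_zero.mpr (h t₁))
    refine ⟨‖γ t₁ - z₀‖ / 2, by linarith, fun t ht => ?_⟩
    have := hmin ht
    simp only [mem_ofPred_eq] at this
    linarith
  obtain ⟨B, hB⟩ := (isCompact_Icc (a := (0:ℝ)) (b := 1)).exists_bound_of_continuousOn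
    (f := deriv γ) hd.continuousOn
  have hfar : ∀ z ∈ Metric.ball z₀ δ, ∀ t ∈ Icc (0:ℝ) 1, δ ≤ ‖γ t - z‖ := by
    intro z hz t ht
    have h1 := hδt t ht
    have h2 : ‖γ t - z₀‖ ≤ ‖γ t - z‖ + ‖z - z₀‖ := by
      have : γ t - z₀ = (γ t - z) + (z - z₀) := by ring
      rw [this]
      exact norm_add_le _ _
    have h3 : ‖z - z₀‖ < δ := by simpa [dist_eq_norm] using hz
    linarith
  have hne : ∀ z ∈ Metric.ball z₀ δ, ∀ t ∈ Icc (0:ℝ) 1, γ t - z ≠ 0 := by
    intro z hz t ht h0
    have := hfar z hz t ht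
    rw [h0, norm_zero] at this
    linarith
  have hsub : uIoc (0:ℝ) 1 ⊆ Icc (0:ℝ) 1 := by
    rw [uIoc_of_le zero_le_one]
    exact Ioc_subset_Icc_self
  have hcont : ∀ z ∈ Metric.ball z₀ δ, ContinuousOn (fun t => deriv γ t / (γ t - z)) (Icc 0 1) :=
    fun z hz => hd.continuousOn.div (hc.sub continuous_const).continuousOn (hne z hz)
  have hcont' : ∀ z ∈ Metric.ball z₀ δ,
      ContinuousOn (fun t => deriv γ t / (γ t - z) ^ 2) (Icc 0 1) :=
    fun z hz => hd.continuousOn.div ((hc.sub continuous_const).pow 2).continuousOn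
      (fun t ht => pow_ne_zero 2 (hne z hz t ht))
  have key := intervalIntegral.hasDerivAt_integral_of_dominated_loc_of_deriv_le
    (𝕜 := ℂ) (μ := volume) (a := 0) (b := 1) (F := fun z t => deriv γ t / (γ t - z))
    (F' := fun z t => deriv γ t / (γ t - z) ^ 2) (x₀ := z₀) (s := Metric.ball z₀ δ)
    (bound := fun _ => B / δ ^ 2)
    (Metric.ball_mem_nhds _ hδ)
    (by
      filter_upwards [Metric.ball_mem_nhds z₀ hδ] with z hz
      exact ((hcont z hz).mono hsub).aestronglyMeasurable measurableSet_uIoc)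
    (by
      apply ContinuousOn.intervalIntegrable
      rw [uIcc_of_le zero_le_one]
      exact hcont z₀ (Metric.mem_ball_self hδ))
    (((hcont' z₀ (Metric.mem_ball_self hδ)).mono hsub).aestronglyMeasurable measurableSet_uIoc)
    (by
      refine Eventually.of_forall fun t ht z hz => ?_
      rw [norm_div, norm_pow]
      have h1 := hfar z hz t (hsub ht)
      exact div_le_div₀ (le_trans (norm_nonneg _) (hB t (hsub ht))) (hB t (hsub ht))
        (by positivity) (pow_le_pow_left₀ hδ.le h1 2))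
    (by simp)
    (by
      refine Eventually.of_forall fun t ht z hz => ?_
      have h0 := hne z hz t (hsub ht)
      have h1 : HasDerivAt (fun z : ℂ => γ t - z) (-1) z := by
        simpa using (hasDerivAt_id z).const_sub (γ t)
      have h2 := (hasDerivAt_const z (deriv γ t)).div h1 h0
      have h3 : (0 * (γ t - z) - deriv γ t * (-1)) / (γ t - z) ^ 2
          = deriv γ t / (γ t - z) ^ 2 := by ring
      rw [h3] at h2
      exact h2)
  have hint : (∫ t in (0:ℝ)..1, deriv γ t / (γ t - z₀) ^ 2) = 0 := by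
    have hz0 := Metric.mem_ball_self (x := z₀) hδ
    have := intervalIntegral.integral_eq_sub_of_hasDerivAt (a := (0:ℝ)) (b := 1)
      (f := fun t => -(γ t - z₀)⁻¹) (f' := fun t => deriv γ t / (γ t - z₀) ^ 2)
      (by
        intro t ht
        rw [uIcc_of_le zero_le_one] at ht
        have h0 := hne z₀ hz0 t ht
        have h1 : HasDerivAt (fun t : ℝ => γ t - z₀) (deriv γ t) t := by
          have := ((hγ.differentiable one_ne_zero) t).hasDerivAt
          simpa using this.sub_const z₀
        have h2 := (h1.inv h0).neg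
        have h3 : -(-deriv γ t / (γ t - z₀) ^ 2) = deriv γ t / (γ t - z₀) ^ 2 := by
          rw [neg_div, neg_neg]
        rw [h3] at h2
        exact h2)
      (by
        apply ContinuousOn.intervalIntegrable
        rw [uIcc_of_le zero_le_one]
        exact hcont' z₀ hz0)
    rw [this, hper]
    ring
  have := key.2
  rw [hint] at this
  exact this

end PkgWLC

theorem pWLC : S_WLC := by
  intro M n γ hD C hC hCO x hx y hy
  have hO : IsOpen (frontier M)ᶜ := isClosed_frontier.isOpen_compl
  have hder : ∀ z ∈ (frontier M)ᶜ, HasDerivAt (Wd γ) 0 z := by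
    intro z hz
    have h1 : ∀ i, HasDerivAt (fun z : ℂ => ∫ t in (0 : ℝ)..1, deriv (γ i) t / (γ i t - z)) 0 z := by
      intro i
      apply PkgWLC.hasDeriv (γ i) (hD.smooth i)
      · simpa using hD.per i 0
      · intro t h
        apply hz
        rw [← hD.bd]
        exact mem_iUnion.mpr ⟨i, t, h⟩
    have h2 := HasDerivAt.fun_sum (u := Finset.univ) (fun i _ => h1 i)
    have h3 : (∑ i : Fin n, (0:ℂ)) = 0 := by simp
    rw [h3] at h2
    exact h2
  have hCc : C ⊆ connectedComponentIn (frontier M)ᶜ x := hC.subset_connectedComponentIn hx hCO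
  have hsub : connectedComponentIn (frontier M)ᶜ x ⊆ (frontier M)ᶜ :=
    connectedComponentIn_subset _ _
  exact (hO.connectedComponentIn (x := x)).is_const_of_deriv_eq_zero
    isPreconnected_connectedComponentIn
    (fun z hz => (hder z (hsub hz)).differentiableAt.differentiableWithinAt)
    (fun z hz => (hder z (hsub hz)).deriv) (hCc hx) (hCc hy)

end Pool.Agent.T2H72.CK
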