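import Pool.Agent.T2H72.CK.JMP
import Pool.Agent.T2H72.CK.WIN
import Pool.Agent.T2H72.CK.DIX
import Pool.Agent.T2H72.CK.DX1
import Pool.Agent.T2H72.CK.DX2
import Pool.Agent.T2H72.CK.LOC
import Pool.Agent.T2H72.CK.LC2
import Pool.Agent.T2H72.CK.TRF
import Pool.Agent.T2H72.CK.WLC
import Pool.Agent.T2H72.CK.INF
import Pool.Agent.T2H72.CK.HOL
import Pool.Agent.T2H72.CK.SCA
import Pool.Agent.T2H72.CK.ANA
import Pool.Agent.T2H72.CK.PRD
import Pool.Agent.T2H72.CK.ALG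
import Pool.Agent.T2H72.CK.DSK
import Pool.Agent.T2H72.CK.Final

set_option autoImplicit false

namespace Pool.Agent.T2H72.CK

theorem allWIN : S_WIN := pWIN pWLC pINF pJMP (pLC2 pLOC) pDX2

theorem allDIX : S_DIX := pDIX allWIN pDX1 pDX2 pINF

theorem allSCA : S_SCA := pSCA allDIX pTRF pHOL

theorem allPRD : S_PRD := pPRD allSCA pANA

end Pool.Agent.T2H72.CK
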