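import Mathlib

/-!
# Cauchy integral formulas in the plane for families of two elements of an algebra

Definitions for `MP_9dd505_an` with `k = 2`: the plane `V` with the coordinates `x₁, x₂`, left
analytic functions, compact submanifolds of dimension two with smooth boundary, the boundary with
the induced orientation, kernels which give a Cauchy integral formula, admissible families.
-/

set_option autoImplicit false

namespace Pool.Agent.T2H72.CK

open Set Filter Topology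

/-- The plane `V`, with the coordinates `x₁, x₂` of `x = x₁ e₁ + x₂ e₂`. -/
abbrev Pl : Type := ℝ × ℝ

section Problem

variable {A : Type} [NormedRing A] [NormedAlgebra ℝ A]

/-- `f` is left analytic on `U`: it is differentiable and `e₁ ∂f/∂x₁ + e₂ ∂f/∂x₂ = 0` on `U`
(`e₁ = e 0`, `e₂ = e 1`). -/
def LeftAnalytic (e : Fin 2 → A) (U : Set Pl) (f : Pl → A) : Prop :=
  (∀ x ∈ U, DifferentiableAt ℝ f x) ∧
    ∀ x ∈ U, e 0 * fderiv ℝ f x (1, 0) + e 1 * fderiv ℝ f x (0, 1) = 0

/-- `M` is a compact submanifold (with boundary) of dimension two of the plane, with smooth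
boundary: it is compact, and near every point of its topological boundary it is the sublevel set
`{ρ ≤ 0}` of a smooth function `ρ` whose differential does not vanish at the point. -/
def SmoothDomain (M : Set Pl) : Prop :=
  IsCompact M ∧ ∀ p ∈ frontier M, ∃ ρ : Pl → ℝ, ContDiffAt ℝ (⊤ : ℕ∞) ρ p ∧ fderiv ℝ ρ p ≠ 0 ∧
    ∀ᶠ x in 𝓝 p, (x ∈ M ↔ ρ x ≤ 0)

/-- `γ` is a parametrisation of the boundary of `M` by finitely many smooth closed curves (of
period one, regular, injective, pairwise disjoint) which respects the induced orientation: `M`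
lies to the left of the curves. -/
structure BoundaryParam (M : Set Pl) {n : ℕ} (γ : Fin n → ℝ → Pl) : Prop where
  smooth : ∀ i, ContDiff ℝ (⊤ : ℕ∞) (γ i)
  per : ∀ i t, γ i (t + 1) = γ i t
  reg : ∀ i t, deriv (γ i) t ≠ 0
  inj : ∀ i j s t, γ i s = γ j t → i = j ∧ ∃ m : ℤ, s = t + m
  bd : ⋃ i, range (γ i) = frontier M
  left : ∀ i t, ∀ᶠ s in 𝓝[>] (0 : ℝ),
    γ i t + s • ((-(deriv (γ i) t).2, (deriv (γ i) t).1) : Pl) ∈ M

/-- The kernel `G` gives a Cauchy integral formula for the family `e₁, e₂`: for every open `U`,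
every left analytic `f` on `U`, every compact submanifold `M ⊆ U` of dimension two with smooth
boundary and every `x₀` in the interior of `M`,
`f(x₀) = ∫_{∂M} G(x, x₀) (- e₁ dx₂ + e₂ dx₁) f(x)`. -/
def CauchyFormula (e : Fin 2 → A) (G : Pl → Pl → A) : Prop :=
  ∀ U : Set Pl, IsOpen U → ∀ f : Pl → A, LeftAnalytic e U f → ∀ M : Set Pl, M ⊆ U →
    SmoothDomain M → ∀ (n : ℕ) (γ : Fin n → ℝ → Pl), BoundaryParam M γ → ∀ x₀ ∈ interior M,
      f x₀ = ∑ i, ∫ t in (0 : ℝ)..1,
        G (γ i t) x₀ * (-((deriv (γ i) t).2 • e 0) + (deriv (γ i) t).1 • e 1) * f (γ i t)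

/-- The family is admissible: `p_j e_l + p_l e_j = 2 δ_{jl}` for some `p₁, p₂`. -/
def Admissible (e : Fin 2 → A) : Prop :=
  ∃ p : Fin 2 → A, ∀ j l, p j * e l + p l * e j = (if j = l then 2 else 0 : ℝ) • (1 : A)

end Problem

/-! ### The plane of the complex variable -/

/-- `M` is a compact domain of the complex plane with oriented boundary `γ` of class `C¹`. -/
structure Dom (M : Set ℂ) {n : ℕ} (γ : Fin n → ℝ → ℂ) : Prop where
  cpt : IsCompact M
  smooth : ∀ i, ContDiff ℝ 1 (γ i)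
  per : ∀ i t, γ i (t + 1) = γ i t
  inj : ∀ i j s t, γ i s = γ j t → i = j ∧ ∃ m : ℤ, s = t + m
  bd : ⋃ i, range (γ i) = frontier M
  loc : ∀ i t, ∃ ρ : ℂ → ℝ, ContDiffAt ℝ 1 ρ (γ i t) ∧
    (∀ᶠ x in 𝓝 (γ i t), (x ∈ M ↔ ρ x ≤ 0)) ∧
    fderiv ℝ ρ (γ i t) (Complex.I * deriv (γ i) t) < 0

/-- `2 π i` times the winding number of the boundary about `z` -/
noncomputable def Wd {n : ℕ} (γ : Fin n → ℝ → ℂ) (z : ℂ) : ℂ :=
  ∑ i, ∫ t in (0 : ℝ)..1, deriv (γ i) t / (γ i t - z)

/-- The linear coordinate `ζ = x₁ - x₂ / μ`, which solves `∂ζ/∂x₁ + μ ∂ζ/∂x₂ = 0`. -/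
noncomputable def L (μ : ℂ) (x : Pl) : ℂ := (x.1 : ℂ) - (x.2 : ℂ) / μ

/-- The Cauchy kernel of `∂₁ + μ ∂₂` -/
noncomputable def Ker (μ : ℂ) (x x₀ : Pl) : ℂ :=
  1 / (2 * Real.pi * Complex.I * μ * (L μ x - L μ x₀))

end Pool.Agent.T2H72.CK
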