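import Pool.Agent.T2H72.CK.Stm

set_option autoImplicit false

namespace Pool.Agent.T2H72.CK

namespace PkgJMP

open Set Filter Topology MeasureTheory
open Complex (I)

variable {γ : ℝ → ℂ} {t₀ : ℝ}

lemma norm_lin (t s : ℝ) (hs : 0 < s) (ε : ℂ) (hε : ε = I ∨ ε = -I) :
    (|t| + s) / 2 ≤ ‖(t : ℂ) - s * ε‖ := by
  have h1 : |t| ≤ ‖(t : ℂ) - s * ε‖ := by
    have := Complex.abs_re_le_norm ((t : ℂ) - s * ε)
    rcases hε with h | h <;> subst h <;> simpa using this
  have h2 : s ≤ ‖(t : ℂ) - s * ε‖ := by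
    have := Complex.abs_im_le_norm ((t : ℂ) - s * ε)
    rcases hε with h | h <;> subst h
    · simp at this; rwa [abs_of_pos hs] at this
    · have h3 : ((t : ℂ) - s * -I).im = s := by simp
      rw [h3, abs_of_pos hs] at this
      exact this
  linarith

lemma lower (hγ : ContDiff ℝ 1 γ) (hinj : ∀ s t, γ s = γ t → ∃ m : ℤ, s = t + m)
    (hc : deriv γ t₀ ≠ 0) :
    ∃ m : ℝ, 0 < m ∧ ∃ s₀ : ℝ, 0 < s₀ ∧ ∀ s : ℝ, 0 < s → s < s₀ → ∀ t : ℝ, |t| ≤ 1/2 →
      ∀ ε : ℂ, (ε = I ∨ ε = -I) → m * (|t| + s) ≤ ‖γ (t₀ + t) - γ t₀ - s * (ε * deriv γ t₀)‖ := by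
  set c := deriv γ t₀ with hcdef
  have hcpos : 0 < ‖c‖ := norm_pos_iff.2 hc
  have hd : HasDerivAt γ c t₀ := (hγ.differentiable (by norm_num) t₀).hasDerivAt
  -- near
  have hlit := hasDerivAt_iff_isLittleO_nhds_zero.1 hd
  have hev := hlit.def (show (0:ℝ) < ‖c‖ / 4 by positivity)
  obtain ⟨η, hη, hball⟩ := Metric.eventually_nhds_iff.1 hev
  set η' := min (η / 2) (1 / 4) with hη'
  have hη'pos : 0 < η' := by positivity
  have hnear : ∀ t : ℝ, |t| ≤ η' → ‖γ (t₀ + t) - γ t₀ - t * c‖ ≤ ‖c‖ / 4 * |t| := by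
    intro t ht
    have h1 : dist t 0 < η := by
      rw [Real.dist_eq, sub_zero]
      have : η' ≤ η / 2 := min_le_left _ _
      linarith
    have h2 := hball h1
    simpa [Complex.real_smul] using h2
  -- away
  have hK : IsCompact {t : ℝ | η' ≤ |t| ∧ |t| ≤ 1/2} := by
    apply (isCompact_Icc (a := -(1/2:ℝ)) (b := 1/2)).of_isClosed_subset
    · exact (isClosed_le continuous_const continuous_abs).inter
        (isClosed_le continuous_abs continuous_const)
    · rintro t ⟨-, h2⟩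
      exact abs_le.1 h2
  have hne : {t : ℝ | η' ≤ |t| ∧ |t| ≤ 1/2}.Nonempty := by
    refine ⟨1/2, ?_, ?_⟩
    · rw [abs_of_pos (by norm_num)]
      have : η' ≤ 1/4 := min_le_right _ _
      linarith
    · rw [abs_of_pos (by norm_num)]
  have hcont : Continuous (fun t : ℝ => ‖γ (t₀ + t) - γ t₀‖) :=
    ((hγ.continuous.comp (by fun_prop)).sub continuous_const).norm
  obtain ⟨t₁, ht₁, hmin⟩ := hK.exists_isMinOn hne hcont.continuousOn
  set κ := ‖γ (t₀ + t₁) - γ t₀‖ with hκ
  have hκpos : 0 < κ := by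
    rw [hκ, norm_pos_iff, sub_ne_zero]
    intro h
    obtain ⟨m, hm⟩ := hinj _ _ h
    have h1 : t₁ = m := by linarith
    have h2 := ht₁.1
    have h3 := ht₁.2
    rw [h1] at h2 h3
    have h4 : |(m:ℝ)| < 1 := by linarith
    have h5 : |m| < 1 := by
      have : ((|m| : ℤ) : ℝ) < 1 := by push_cast; exact h4
      exact_mod_cast this
    have h6 : m = 0 := Int.abs_lt_one_iff.1 h5
    rw [h6] at h2
    simp at h2
    linarith
  refine ⟨min (‖c‖ / 4) (κ / 2), by positivity, min (1/2) (κ / (2 * ‖c‖)), by positivity, ?_⟩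
  intro s hs hs0 t ht ε hε
  have hεn : ‖ε‖ = 1 := by rcases hε with h | h <;> subst h <;> simp
  have hts : 0 ≤ |t| + s := by positivity
  rcases le_or_gt |t| η' with h | h
  · -- near
    have h1 := hnear t h
    have h2 := norm_lin t s hs ε hε
    have h3 : γ (t₀ + t) - γ t₀ - s * (ε * c) =
        (γ (t₀ + t) - γ t₀ - t * c) + ((t : ℂ) - s * ε) * c := by ring
    have h4 : ‖((t : ℂ) - s * ε) * c‖ - ‖γ (t₀ + t) - γ t₀ - t * c‖ ≤
        ‖γ (t₀ + t) - γ t₀ - s * (ε * c)‖ := by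
      rw [h3]
      have := norm_sub_norm_le (((t : ℂ) - s * ε) * c) (-(γ (t₀ + t) - γ t₀ - t * c))
      rw [norm_neg, sub_neg_eq_add, add_comm (((t : ℂ) - s * ε) * c)] at this
      exact this
    rw [norm_mul] at h4
    have h5 : (|t| + s) / 2 * ‖c‖ ≤ ‖(t : ℂ) - s * ε‖ * ‖c‖ :=
      mul_le_mul_of_nonneg_right h2 hcpos.le
    have h6 : min (‖c‖ / 4) (κ / 2) * (|t| + s) ≤ ‖c‖ / 4 * (|t| + s) :=
      mul_le_mul_of_nonneg_right (min_le_left _ _) hts
    have h7 : 0 ≤ ‖c‖ * s := by positivity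
    nlinarith
  · have h1 : κ ≤ ‖γ (t₀ + t) - γ t₀‖ := hmin ⟨h.le, ht⟩
    have h2 : ‖γ (t₀ + t) - γ t₀‖ - ‖(s : ℂ) * (ε * c)‖ ≤
        ‖γ (t₀ + t) - γ t₀ - s * (ε * c)‖ := norm_sub_norm_le _ _
    have h3 : ‖(s : ℂ) * (ε * c)‖ = s * ‖c‖ := by
      rw [norm_mul, norm_mul, hεn, one_mul, Complex.norm_real, Real.norm_of_nonneg hs.le]
    have h4 : s * ‖c‖ ≤ κ / 2 := by
      have h5 : s < κ / (2 * ‖c‖) := lt_of_lt_of_le hs0 (min_le_right _ _)
      rw [lt_div_iff₀ (by positivity)] at h5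
      linarith
    have h5 : s < 1/2 := lt_of_lt_of_le hs0 (min_le_left _ _)
    have h6 : min (‖c‖ / 4) (κ / 2) * (|t| + s) ≤ κ / 2 * (|t| + s) :=
      mul_le_mul_of_nonneg_right (min_le_right _ _) hts
    have h7 : κ / 2 * (|t| + s) ≤ κ / 2 * 1 := by
      apply mul_le_mul_of_nonneg_left _ (by positivity)
      linarith
    rw [h3] at h2
    linarith

/-- shift of the interval of integration -/
lemma shift (hγ : ContDiff ℝ 1 γ) (hper : ∀ t, γ (t + 1) = γ t) (z : ℂ) :
    ∫ t in (0:ℝ)..1, deriv γ t / (γ t - z) =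
      ∫ t in (-(1/2:ℝ))..(1/2), deriv γ (t₀ + t) / (γ (t₀ + t) - z) := by
  have hd : ∀ t, deriv γ (t + 1) = deriv γ t := by
    intro t
    have : (fun x => γ (x + 1)) = γ := funext hper
    rw [← deriv_comp_add_const, this]
  have hp : Function.Periodic (fun t => deriv γ t / (γ t - z)) 1 := by
    intro t
    simp only [hd, hper]
  have h1 := hp.intervalIntegral_add_eq 0 (t₀ - 1/2)
  rw [zero_add] at h1
  rw [h1]
  have h2 := intervalIntegral.integral_comp_add_left (a := -(1/2:ℝ)) (b := 1/2)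
    (fun t => deriv γ t / (γ t - z)) t₀
  rw [h2]
  congr 1 <;> ring

theorem main (hγ : ContDiff ℝ 1 γ) (hper : ∀ t, γ (t + 1) = γ t)
    (hinj : ∀ s t, γ s = γ t → ∃ m : ℤ, s = t + m) (hc : deriv γ t₀ ≠ 0) :
    Tendsto (fun s : ℝ => (∫ t in (0 : ℝ)..1,
      deriv γ t / (γ t - (γ t₀ + s * (I * deriv γ t₀)))) -
    ∫ t in (0 : ℝ)..1, deriv γ t / (γ t - (γ t₀ - s * (I * deriv γ t₀))))
    (𝓝[>] (0 : ℝ)) (𝓝 (2 * Real.pi * I)) := by
  obtain ⟨m, hm, s₀, hs₀, hlow⟩ := lower hγ hinj hc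
  set c := deriv γ t₀ with hcdef
  have hcpos : 0 < ‖c‖ := norm_pos_iff.2 hc
  have hd : HasDerivAt γ c t₀ := (hγ.differentiable (by norm_num) t₀).hasDerivAt
  have hdc : Continuous (deriv γ) := hγ.continuous_deriv le_rfl
  -- bound of the derivative
  obtain ⟨B, hB⟩ := (isCompact_Icc (a := t₀ - 1/2) (b := t₀ + 1/2)).exists_bound_of_continuousOn
    hdc.continuousOn
  have hB0 : 0 ≤ B := (norm_nonneg _).trans (hB t₀ ⟨by linarith, by linarith⟩)
  -- the integrand after substitution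
  set H : ℝ → ℝ → ℂ := fun s t => deriv γ (t₀ + t) * (2 * s * I * c) /
    ((γ (t₀ + t) - γ t₀ - s * (I * c)) * (γ (t₀ + t) - γ t₀ - s * (-I * c))) with hH
  have hne : ∀ s : ℝ, 0 < s → s < s₀ → ∀ t : ℝ, |t| ≤ 1/2 → ∀ ε : ℂ, (ε = I ∨ ε = -I) →
      γ (t₀ + t) - γ t₀ - s * (ε * c) ≠ 0 := by
    intro s hs hs' t ht ε hε h0
    have h1 := hlow s hs hs' t ht ε hε
    rw [h0, norm_zero] at h1
    have : 0 < m * (|t| + s) := by positivity
    linarith
  have hcontd : ∀ s : ℝ, 0 < s → s < s₀ → ∀ ε : ℂ, (ε = I ∨ ε = -I) →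
      ContinuousOn (fun t : ℝ => deriv γ (t₀ + t) / (γ (t₀ + t) - γ t₀ - s * (ε * c)))
        (Icc (-(1/2)) (1/2)) := by
    intro s hs hs' ε hε
    apply ContinuousOn.div
    · exact (hdc.comp (by fun_prop)).continuousOn
    · exact (((hγ.continuous.comp (by fun_prop)).sub continuous_const).sub
        continuous_const).continuousOn
    · intro t ht
      exact hne s hs hs' t (abs_le.2 ht) ε hε
  have h1 : ∀ s : ℝ, 0 < s → s < s₀ → (∫ t in (0 : ℝ)..1,
      deriv γ t / (γ t - (γ t₀ + s * (I * c)))) -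
      (∫ t in (0 : ℝ)..1, deriv γ t / (γ t - (γ t₀ - s * (I * c)))) =
      ∫ t in (-(1/2:ℝ))..(1/2), H s t := by
    intro s hs hs'
    rw [shift hγ hper (t₀ := t₀), shift hγ hper (t₀ := t₀)]
    have e1 : ∀ t : ℝ, deriv γ (t₀ + t) / (γ (t₀ + t) - (γ t₀ + s * (I * c))) =
        deriv γ (t₀ + t) / (γ (t₀ + t) - γ t₀ - s * (I * c)) := by
      intro t; congr 1; ring
    have e2 : ∀ t : ℝ, deriv γ (t₀ + t) / (γ (t₀ + t) - (γ t₀ - s * (I * c))) =
        deriv γ (t₀ + t) / (γ (t₀ + t) - γ t₀ - s * (-I * c)) := by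
      intro t; congr 1; ring
    simp only [e1, e2]
    have hle : (-(1/2:ℝ)) ≤ 1/2 := by norm_num
    rw [← intervalIntegral.integral_sub]
    · apply intervalIntegral.integral_congr
      intro t ht
      rw [uIcc_of_le hle] at ht
      have n1 := hne s hs hs' t (abs_le.2 ht) I (Or.inl rfl)
      have n2 := hne s hs hs' t (abs_le.2 ht) (-I) (Or.inr rfl)
      simp only [hH]
      rw [div_sub_div _ _ n1 n2]
      congr 1
      ring
    · exact ContinuousOn.intervalIntegrable (by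
        rw [uIcc_of_le hle]; exact hcontd s hs hs' I (Or.inl rfl))
    · exact ContinuousOn.intervalIntegrable (by
        rw [uIcc_of_le hle]; exact hcontd s hs hs' (-I) (Or.inr rfl))
  -- substitution
  set F : ℝ → ℝ → ℂ := fun s u =>
    (Icc (-(1 / (2 * s))) (1 / (2 * s))).indicator (fun u => s • H s (s * u)) u with hF
  have h2 : ∀ s : ℝ, 0 < s → ∫ t in (-(1/2:ℝ))..(1/2), H s t = ∫ u, F s u := by
    intro s hs
    have hle : -(1 / (2 * s)) ≤ 1 / (2 * s) := by
      have : 0 < 1 / (2 * s) := by positivity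
      linarith
    simp only [hF]
    rw [integral_indicator measurableSet_Icc, integral_Icc_eq_integral_Ioc,
      ← intervalIntegral.integral_of_le hle, intervalIntegral.integral_smul,
      intervalIntegral.smul_integral_comp_mul_left]
    congr 1 <;> field_simp
  have hmem : ∀ s : ℝ, 0 < s → ∀ u ∈ Icc (-(1 / (2 * s))) (1 / (2 * s)), |s * u| ≤ 1/2 := by
    intro s hs u hu
    rw [abs_mul, abs_of_pos hs]
    have h3 : |u| ≤ 1 / (2 * s) := abs_le.2 hu
    calc s * |u| ≤ s * (1 / (2 * s)) := mul_le_mul_of_nonneg_left h3 hs.le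
      _ = 1/2 := by field_simp
  have hpos : ∀ᶠ s : ℝ in 𝓝[>] 0, 0 < s := self_mem_nhdsWithin
  have hlt : ∀ᶠ s : ℝ in 𝓝[>] 0, s < s₀ :=
    nhdsWithin_le_nhds (Iio_mem_nhds hs₀)
  have key : Tendsto (fun s : ℝ => ∫ u, F s u) (𝓝[>] (0:ℝ))
      (𝓝 (∫ u : ℝ, (2 * I) * (((1 + u ^ 2)⁻¹ : ℝ) : ℂ))) := by
    apply tendsto_integral_filter_of_dominated_convergence
      (fun u : ℝ => (2 * B * ‖c‖ / m ^ 2) * (1 + u ^ 2)⁻¹)
    · filter_upwards [hpos, hlt] with s hs hs'
      apply AEStronglyMeasurable.indicator _ measurableSet_Icc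
      simp only [hH]
      apply Measurable.aestronglyMeasurable
      have m1 : Measurable (fun u : ℝ => deriv γ (t₀ + s * u)) :=
        (hdc.comp (by fun_prop)).measurable
      have m2 : Measurable (fun u : ℝ => γ (t₀ + s * u)) :=
        (hγ.continuous.comp (by fun_prop)).measurable
      exact ((m1.mul_const _).div (((m2.sub_const _).sub_const _).mul
        ((m2.sub_const _).sub_const _))).const_smul s
    · filter_upwards [hpos, hlt] with s hs hs'
      refine Eventually.of_forall fun u => ?_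
      simp only [hF]
      by_cases hu : u ∈ Icc (-(1 / (2 * s))) (1 / (2 * s))
      · rw [indicator_of_mem hu]
        have hsu := hmem s hs u hu
        have l1 := hlow s hs hs' (s * u) hsu I (Or.inl rfl)
        have l2 := hlow s hs hs' (s * u) hsu (-I) (Or.inr rfl)
        have e3 : |s * u| + s = s * (|u| + 1) := by rw [abs_mul, abs_of_pos hs]; ring
        rw [e3] at l1 l2
        have b1 : ‖deriv γ (t₀ + s * u)‖ ≤ B := by
          apply hB
          have := abs_le.1 hsu
          exact ⟨by linarith, by linarith⟩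
        have hden : (m * s) ^ 2 * (1 + u ^ 2) ≤
            ‖γ (t₀ + s * u) - γ t₀ - s * (I * c)‖ * ‖γ (t₀ + s * u) - γ t₀ - s * (-I * c)‖ := by
          calc (m * s) ^ 2 * (1 + u ^ 2) ≤ (m * (s * (|u| + 1))) * (m * (s * (|u| + 1))) := by
                have : 1 + u ^ 2 ≤ (|u| + 1) ^ 2 := by
                  nlinarith [abs_nonneg u, sq_abs u]
                calc (m * s) ^ 2 * (1 + u ^ 2) ≤ (m * s) ^ 2 * (|u| + 1) ^ 2 :=
                      mul_le_mul_of_nonneg_left this (by positivity)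
                  _ = _ := by ring
            _ ≤ _ := mul_le_mul l1 l2 (by positivity) (norm_nonneg _)
        simp only [hH]
        rw [norm_smul, norm_div, norm_mul, norm_mul, norm_mul, norm_mul, norm_mul,
          Real.norm_of_nonneg hs.le, Complex.norm_I, Complex.norm_real,
          Real.norm_of_nonneg hs.le, Complex.norm_ofNat]
        have hden0 : 0 < (m * s) ^ 2 * (1 + u ^ 2) := by positivity
        calc s * (‖deriv γ (t₀ + s * u)‖ * (2 * s * 1 * ‖c‖) /
              (‖γ (t₀ + s * u) - γ t₀ - s * (I * c)‖ *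
                ‖γ (t₀ + s * u) - γ t₀ - s * (-I * c)‖))
            ≤ s * (B * (2 * s * 1 * ‖c‖) / ((m * s) ^ 2 * (1 + u ^ 2))) := by
              apply mul_le_mul_of_nonneg_left _ hs.le
              apply div_le_div₀ (by positivity) _ hden0 hden
              exact mul_le_mul_of_nonneg_right b1 (by positivity)
          _ = (2 * B * ‖c‖ / m ^ 2) * (1 + u ^ 2)⁻¹ := by
              field_simp
      · rw [indicator_of_notMem hu, norm_zero]
        positivity
    · exact integrable_inv_one_add_sq.const_mul _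
    · refine Eventually.of_forall fun u => ?_
      have hsu : Tendsto (fun s : ℝ => s * u) (𝓝[>] (0:ℝ)) (𝓝 0) := by
        have : Tendsto (fun s : ℝ => s * u) (𝓝 (0:ℝ)) (𝓝 (0 * u)) :=
          (continuous_id.mul continuous_const).tendsto 0
        rw [zero_mul] at this
        exact this.mono_left nhdsWithin_le_nhds
      -- limit of the difference quotient
      have q1 : Tendsto (fun s : ℝ => (s : ℂ)⁻¹ * (γ (t₀ + s * u) - γ t₀)) (𝓝[>] (0:ℝ))
          (𝓝 (c * u)) := by
        have hd2 : HasDerivAt (fun s : ℝ => γ (t₀ + s * u)) (c * u) 0 := by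
          have g1 : HasDerivAt (fun s : ℝ => t₀ + s * u) u 0 := by
            simpa using ((hasDerivAt_id (0:ℝ)).mul_const u).const_add t₀
          have g2 : HasDerivAt γ c (t₀ + 0 * u) := by simpa using hd
          have g3 := HasDerivAt.scomp (0:ℝ) g2 g1
          have e : u • c = c * u := by rw [Complex.real_smul]; ring
          rw [e] at g3
          exact g3
        have g4 := hd2.tendsto_slope_zero_right
        simp only [zero_add, zero_mul, add_zero] at g4
        refine g4.congr fun s => ?_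
        rw [Complex.real_smul, Complex.ofReal_inv]
      have q2 : Tendsto (fun s : ℝ => deriv γ (t₀ + s * u)) (𝓝[>] (0:ℝ)) (𝓝 c) := by
        have : Tendsto (fun s : ℝ => deriv γ (t₀ + s * u)) (𝓝[>] (0:ℝ)) (𝓝 (deriv γ (t₀ + 0))) :=
          (hdc.tendsto _).comp (hsu.const_add t₀)
        rw [add_zero] at this
        exact this
      have q3 : Tendsto (fun s : ℝ => deriv γ (t₀ + s * u) * (2 * I * c) /
          (((s : ℂ)⁻¹ * (γ (t₀ + s * u) - γ t₀) - I * c) *
            ((s : ℂ)⁻¹ * (γ (t₀ + s * u) - γ t₀) - -I * c))) (𝓝[>] (0:ℝ))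
          (𝓝 (c * (2 * I * c) / ((c * u - I * c) * (c * u - -I * c)))) := by
        have hn : (c * u - I * c) * (c * u - -I * c) ≠ 0 := by
          have e : (c * u - I * c) * (c * u - -I * c) = c ^ 2 * ((1 + u ^ 2 : ℝ) : ℂ) := by
            push_cast
            linear_combination (-(c ^ 2)) * Complex.I_sq
          rw [e]
          have : (1 + u ^ 2 : ℝ) ≠ 0 := by positivity
          exact mul_ne_zero (pow_ne_zero _ hc) (Complex.ofReal_ne_zero.2 this)
        exact ((q2.mul_const _).div ((q1.sub_const _).mul (q1.sub_const _)) hn)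
      have q4 : c * (2 * I * c) / ((c * u - I * c) * (c * u - -I * c)) =
          (2 * I) * (((1 + u ^ 2)⁻¹ : ℝ) : ℂ) := by
        have e : (c * u - I * c) * (c * u - -I * c) = c ^ 2 * ((1 + u ^ 2 : ℝ) : ℂ) := by
          push_cast
          linear_combination (-(c ^ 2)) * Complex.I_sq
        rw [e]
        have h5 : ((1 + u ^ 2 : ℝ) : ℂ) ≠ 0 := by
          have : (1 + u ^ 2 : ℝ) ≠ 0 := by positivity
          exact Complex.ofReal_ne_zero.2 this
        rw [Complex.ofReal_inv]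
        field_simp
      rw [q4] at q3
      refine q3.congr' ?_
      have hsm : ∀ᶠ s : ℝ in 𝓝[>] 0, |s * u| ≤ 1/2 := by
        have : ∀ᶠ x : ℝ in 𝓝 0, |x| ≤ 1/2 := by
          have := Metric.closedBall_mem_nhds (0:ℝ) (show (0:ℝ) < 1/2 by norm_num)
          filter_upwards [this] with x hx
          simpa [Real.dist_eq] using hx
        exact hsu.eventually this
      filter_upwards [hpos, hsm] with s hs hsu'
      have hu : u ∈ Icc (-(1 / (2 * s))) (1 / (2 * s)) := by
        apply abs_le.1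
        rw [abs_mul, abs_of_pos hs] at hsu'
        rw [le_div_iff₀ (by positivity)]
        linarith
      simp only [hF]
      rw [indicator_of_mem hu]
      simp only [hH]
      have hs0 : (s : ℂ) ≠ 0 := Complex.ofReal_ne_zero.2 hs.ne'
      rw [Complex.real_smul]
      have e4 : (s : ℂ)⁻¹ * (γ (t₀ + s * u) - γ t₀) - I * c =
          (s : ℂ)⁻¹ * (γ (t₀ + s * u) - γ t₀ - s * (I * c)) := by
        field_simp
      have e5 : (s : ℂ)⁻¹ * (γ (t₀ + s * u) - γ t₀) - -I * c =
          (s : ℂ)⁻¹ * (γ (t₀ + s * u) - γ t₀ - s * (-I * c)) := by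
        field_simp
      rw [e4, e5]
      generalize γ (t₀ + s * u) - γ t₀ - s * (I * c) = X
      generalize γ (t₀ + s * u) - γ t₀ - s * (-I * c) = Y
      generalize deriv γ (t₀ + s * u) = Z
      rw [div_eq_mul_inv, div_eq_mul_inv, mul_inv, mul_inv, mul_inv, inv_inv, mul_inv]
      ring
  have hval : ∫ u : ℝ, (2 * I) * (((1 + u ^ 2)⁻¹ : ℝ) : ℂ) = 2 * Real.pi * I := by
    rw [integral_const_mul, integral_complex_ofReal, integral_univ_inv_one_add_sq]
    ring
  rw [hval] at key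
  refine key.congr' ?_
  filter_upwards [hpos, hlt] with s hs hs'
  rw [h1 s hs hs', h2 s hs]

end PkgJMP

theorem pJMP : S_JMP := fun _ _ hγ hper hinj hc => PkgJMP.main hγ hper hinj hc

end Pool.Agent.T2H72.CK
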