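import Pool.Agent.T2H72.CK.Defs

/-!
# Packages of project CK (`MP_9dd505_an`, full negative answer)

All packages are independent; the hypotheses of a package are the `Prop`s named in brackets.
Write `Pool/Agent/T2H72/CK/<ID>.lean`: `import Pool.Agent.T2H72.CK.Stm`, `namespace
Pool.Agent.T2H72.CK`, own lemmas in the sub-namespace `Pkg<ID>`, final theorem
`theorem p<ID> (h... : S_...) ... : S_<ID>`.
-/

set_option autoImplicit false

namespace Pool.Agent.T2H72.CK

open Set Filter Topology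

/-- **WLC** (30 min). The winding function is constant on connected sets off the boundary.
Proof: `⋃ i, range (γ i) = frontier M` is closed. For `z` in the open set `O = (frontier M)ᶜ`, each
`z ↦ ∫₀¹ γ'/(γ - z) dt` has the complex derivative `∫₀¹ γ'/(γ - z)² dt`
(`hasDerivAt_integral_of_dominated_loc_of_deriv_le`, or any lemma of the library on holomorphic
dependence on a parameter), and this is `[-1/(γ - z)]₀¹ = 0` by periodicity
(`intervalIntegral.integral_eq_sub_of_hasDerivAt`). So every point of `O` has a ball on which the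
function is constant, hence it is constant on preconnected subsets of `O`
(`IsPreconnected.constant_of_mapsTo` or `IsPreconnected.eqOn_const...`, or
`IsLocallyConstant` on the subtype, or via clopen sets). -/
def S_WLC : Prop := ∀ (M : Set ℂ) (n : ℕ) (γ : Fin n → ℝ → ℂ), Dom M γ → ∀ C : Set ℂ,
  IsPreconnected C → C ⊆ (frontier M)ᶜ → ∀ x ∈ C, ∀ y ∈ C, Wd γ x = Wd γ y

/-- **INF** (20 min). Cauchy type integrals tend to zero at infinity.
Proof: `|γ t| ≤ R`, `|φ t| ≤ B` on `[0,1]` by compactness; for `|z| > R` the integrand is at most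
`B/(|z| - R)` in norm. -/
def S_INF : Prop := ∀ γ φ : ℝ → ℂ, Continuous γ → Continuous φ →
  Tendsto (fun z : ℂ => ∫ t in (0 : ℝ)..1, φ t / (γ t - z)) (cocompact ℂ) (𝓝 0)

/-- **DX2** (30 min). Cauchy type integrals are holomorphic off the curve. (`range γ` is compact as
`γ` is periodic, so its complement is open; differentiate under the integral.) -/
def S_DX2 : Prop := ∀ γ φ : ℝ → ℂ, Continuous γ → Continuous φ → (∀ t, γ (t + 1) = γ t) →
  DifferentiableOn ℂ (fun z : ℂ => ∫ t in (0 : ℝ)..1, φ t / (γ t - z)) (range γ)ᶜ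

/-- **DX1** (45 min). Dixon's first function is holomorphic.
Proof: For fixed `w ∈ U` the function `z ↦ dslope f w z` is holomorphic on `U`
(`Complex.differentiableOn_dslope`); for fixed `z` it is continuous in `w ∈ U`
(`dslope f w z = dslope f z w`: `dslope_of_ne`, `slope_comm`, `dslope_same`), and
`(w, z) ↦ dslope f w z` is bounded on `K × closedBall z₀ r` for compact `K ⊆ U` and
`closedBall z₀ (2 r) ⊆ U`: by the maximum principle
`‖dslope f w z‖ ≤ sup over |ζ - z₀| = 2 r` when `|w - z₀| ≤ (3/2) r`, trivially otherwise; or jointly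
continuous. Then differentiate under the integral with Cauchy's estimate
(`Complex.norm_deriv_le_of_forall_mem_sphere_norm_le`). Possibly some lemma of the library states
that integrals of holomorphic functions depending on a parameter are holomorphic. -/
def S_DX1 : Prop := ∀ (U : Set ℂ) (f : ℂ → ℂ) (γ φ : ℝ → ℂ), IsOpen U → DifferentiableOn ℂ f U →
  Continuous γ → Continuous φ → (∀ t, γ t ∈ U) →
  DifferentiableOn ℂ (fun z : ℂ => ∫ t in (0 : ℝ)..1, dslope f (γ t) z * φ t) U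

/-- **JMP** (50 min). The jump relation: the difference of the Cauchy integrals of `1` at the points
`p + s i γ'(t₀)` and `p - s i γ'(t₀)`, `p = γ(t₀)`, tends to `2 π i` as `s → 0+`.
Proof: put `c = γ'(t₀) ≠ 0`; the difference is
`∫₀¹ γ'(t) 2 s i c / ((γ(t) - p)² + s² c²) dt` (because `(γ - p - s i c)(γ - p + s i c) =
(γ - p)² + s² c²`). By periodicity integrate over `[t₀ - 1/2, t₀ + 1/2]`
(`Function.Periodic.intervalIntegral_add_eq`). By differentiability at `t₀` and injectivity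
(continuity, compactness) there is `m > 0` with `|γ(t) - p ∓ s i c| ≥ m (|t - t₀| + s)` for
`|t - t₀| ≤ 1/2`, `0 < s` small: near `t₀` since `γ(t) - p = c (t - t₀) + o(t - t₀)` and
`|u - i s| ≥ (|u| + s)/2`; away from `t₀` since `|γ(t) - p|` is bounded below. Substitute
`t = t₀ + s u` (`u ∈ ℝ`, indicator of `|u| ≤ 1/(2 s)`): the integrand becomes
`γ'(t₀ + s u) 2 i c / (((γ(t₀ + s u) - p)/s)² + c²)`, dominated by `C/(1 + u²)`-like
`C / (|u| + 1)²` and converging to `2 i / (u² + 1)`; the integral over `ℝ` of `2 i/(1 + u²)` is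
`2 π i` (`integral_univ_inv_one_add_sq`).
Use `tendsto_integral_filter_of_dominated_convergence`. -/
def S_JMP : Prop := ∀ (γ : ℝ → ℂ) (t₀ : ℝ), ContDiff ℝ 1 γ → (∀ t, γ (t + 1) = γ t) →
  (∀ s t, γ s = γ t → ∃ m : ℤ, s = t + m) → deriv γ t₀ ≠ 0 →
  Tendsto (fun s : ℝ => (∫ t in (0 : ℝ)..1,
      deriv γ t / (γ t - (γ t₀ + s * (Complex.I * deriv γ t₀)))) -
    ∫ t in (0 : ℝ)..1, deriv γ t / (γ t - (γ t₀ - s * (Complex.I * deriv γ t₀))))
    (𝓝[>] (0 : ℝ)) (𝓝 (2 * Real.pi * Complex.I))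

/-- **LOC** (45 min). Local structure of a sublevel set at a regular point: there are arbitrarily
small neighbourhoods `N` in which both sides are connected.
Proof: choose `u` with `u, v` a real basis of `ℂ` (for example `u = i v`), and `ε > 0` such that
`ρ` is differentiable on the box `{p + a u + b v : |a| < ε, |b| < ε}` with `dρ(x)(v) < 0` there
(continuity of the derivative, `ContDiffAt ℝ 1`), so that `b ↦ ρ(p + a u + b v)` is strictly
decreasing. Then `ρ(p + (ε/2) v) < 0 < ρ(p - (ε/2) v)`, and by continuity there is `0 < δ < ε` with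
`ρ(p + a u + (ε/2) v) < 0 < ρ(p + a u - (ε/2) v)` for `|a| < δ`. Let
`N = {p + a u + b v : |a| < δ, |b| < ε}`. A point `x = p + a u + b v` of `N ∩ {ρ < 0}` can be joined
with `p + (ε/2) v` inside `N ∩ {ρ < 0}` by the segment to `p + a u + (ε/2) v` (if `b ≥ ε/2` or
`b < ε/2`: along it `ρ` stays `≤ max` of the values at the ends, by monotonicity in `b`) and the
segment `a' ∈ [0, a]` at height `ε/2`. Hence preconnected (`isPreconnected_of_forall`, segments are
preconnected). The same for `ρ > 0`. -/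
def S_LOC : Prop := ∀ (ρ : ℂ → ℝ) (p v : ℂ) (P : Set ℂ), ContDiffAt ℝ 1 ρ p → ρ p = 0 →
  fderiv ℝ ρ p v < 0 → P ∈ 𝓝 p → ∃ N : Set ℂ, IsOpen N ∧ p ∈ N ∧ N ⊆ P ∧
    IsPreconnected (N ∩ {x | ρ x < 0}) ∧ IsPreconnected (N ∩ {x | 0 < ρ x}) ∧
    (∀ᶠ s : ℝ in 𝓝[>] (0 : ℝ), p + s * v ∈ N ∩ {x | ρ x < 0}) ∧
    (∀ᶠ s : ℝ in 𝓝[>] (0 : ℝ), p - s * v ∈ N ∩ {x | 0 < ρ x})

/-- **LC2** (35 min, uses `S_LOC`). Local form of the domain `M` at a boundary point.
Proof: take `ρ` of `Dom.loc`, `P = {x : (x ∈ M ↔ ρ x ≤ 0), ρ continuous near x}` (`ContDiffAt ℝ 1` gives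
continuity in a neighbourhood). `ρ(p) = 0` because `p ∈ frontier M ⊆ M` (`M` closed) gives `≤`, and
`p ∈ closure Mᶜ` gives `≥`. With `N` of `S_LOC`: `N ∩ {ρ < 0}` is open and contained in `M`, hence in
`interior M`; `N ∩ {ρ > 0} ⊆ Mᶜ`; a point of `N ∖ frontier M` with `ρ = 0` would be in `interior M`
(it is in `M`), which is impossible?: NOT needed, because the sets in the statement are `C₁ ⊆ interior
M` and `C₂ ⊆ Mᶜ` and the last clause only speaks about points of `N` off the frontier; for a point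
`x ∈ N ∖ frontier M` with `ρ x = 0`: `x ∈ interior M`, then `ρ ≤ 0` near `x`, but `dρ(x)(v) < 0`
makes `ρ(x - s v) > 0` for small `s`: contradiction (so shrink `P` to the set where moreover
`fderiv ℝ ρ x v < 0` and `ρ` is differentiable). -/
def S_LC2 : Prop := ∀ (M : Set ℂ) (n : ℕ) (γ : Fin n → ℝ → ℂ), Dom M γ → ∀ i t,
  ∃ N C₁ C₂ : Set ℂ, IsOpen N ∧ γ i t ∈ N ∧ IsPreconnected C₁ ∧ IsPreconnected C₂ ∧
    C₁ ⊆ interior M ∧ C₂ ⊆ Mᶜ ∧ N ⊆ C₁ ∪ C₂ ∪ frontier M ∧
    (∀ᶠ s : ℝ in 𝓝[>] (0 : ℝ), γ i t + s * (Complex.I * deriv (γ i) t) ∈ C₁) ∧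
    (∀ᶠ s : ℝ in 𝓝[>] (0 : ℝ), γ i t - s * (Complex.I * deriv (γ i) t) ∈ C₂)

/-- **WIN** (50 min, uses `S_WLC`, `S_INF`, `S_JMP`, `S_LC2`, `S_DX2`). The winding function is
`2 π i` inside and `0` outside.
Proof: `F(z) = Wd γ z - (2 π i if z ∈ M else 0)`, off `frontier M`. Claim: every `z : ℂ` has an open
neighbourhood `N` and a constant `c` with `F = c` on `N ∖ frontier M`. If `z ∉ frontier M` take a
ball off the (closed) frontier: it is inside `interior M` or inside `Mᶜ` after shrinking, use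
`S_WLC`. If `z = γ i t` take `N, C₁, C₂` of `S_LC2`; `F = c₁` on `C₁`, `F = c₂` on `C₂` by `S_WLC`
(`C₁ ⊆ interior M ⊆ (frontier M)ᶜ`). The jump relation gives
`Wd γ (p + s i γ') - Wd γ (p - s i γ') → 2 π i`: for the curve `i` by `S_JMP` (`deriv (γ i) t ≠ 0`
because of `Dom.loc`), and for the curves `j ≠ i` (which do not contain `p` by `Dom.inj`) the
difference tends to `0` by continuity at `p` (`S_DX2`). Hence `c₁ = c₂`. Next `frontier M` has
dense complement (`p + s i γ' ∈ C₁` tends to `p`), so two such neighbourhoods which meet have the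
same constant, and `z ↦ c_z` is locally constant on `ℂ`, so constant
(`IsLocallyConstant.apply_eq_of_isPreconnected`, or `IsPreconnected`), and it is `0` as
`Wd γ → 0` at infinity (`S_INF`) and `M` is bounded. -/
def S_WIN : Prop := ∀ (M : Set ℂ) (n : ℕ) (γ : Fin n → ℝ → ℂ), Dom M γ →
  (∀ z ∈ interior M, Wd γ z = 2 * Real.pi * Complex.I) ∧ (∀ z ∉ M, Wd γ z = 0)

/-- **DIX** (50 min, uses `S_WIN`, `S_DX1`, `S_DX2`, `S_INF`). Cauchy's formula for domains with
boundary.
Proof (Dixon): `φ i t = f (γ i t) * γ i' t` is continuous; `D(z) = ∑ ∫ dslope f (γ i t) z * γ i' t`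
is holomorphic on `U` (`S_DX1`), `h(z) = ∑ ∫ φ i t / (γ i t - z)` is holomorphic off `frontier M`,
so on `Mᶜ` (`S_DX2`). For `z ∈ U ∖ frontier M`: `dslope f w z = (f w - f z)/(w - z)`, so
`D(z) = h(z) - f(z) Wd γ z`. Hence `D = h` on `U ∖ M` (`S_WIN`). `U ∪ Mᶜ = univ`, so
`H = D on U, h on Mᶜ` is entire; it tends to `0` at infinity (`S_INF`), so it is bounded and
constant (`Differentiable.apply_eq_apply_of_bounded`) and `= 0`
(or `Differentiable.eq_zero_of_tendsto...`). For `z₀ ∈ interior M ⊆ U`: `0 = D(z₀) = h(z₀) -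
f(z₀) 2 π i`. -/
def S_DIX : Prop := ∀ (M : Set ℂ) (n : ℕ) (γ : Fin n → ℝ → ℂ), Dom M γ → ∀ (U : Set ℂ)
  (f : ℂ → ℂ), IsOpen U → M ⊆ U → DifferentiableOn ℂ f U → ∀ z₀ ∈ interior M,
    ∑ i, ∫ t in (0 : ℝ)..1, f (γ i t) * deriv (γ i) t / (γ i t - z₀) =
      2 * Real.pi * Complex.I * f z₀

/-- **TRF** (45 min). The linear change of variables.
Proof: `L μ` is a real linear isomorphism of the plane onto `ℂ` (injective as `Im (1/μ) ≠ 0`), a
homeomorphism, so `frontier (L μ '' M) = L μ '' frontier M` (`Homeomorph.image_frontier`), and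
`deriv (L μ ∘ γ) t = L μ (deriv γ t)`. Local form: for `ρ` of `SmoothDomain` at `p = γ i t` use
`ρ ∘ (L μ)⁻¹`; it is `C¹` at `L μ p`. Put `ℓ = fderiv ℝ ρ p`, `T = deriv (γ i) t`,
`J T = (-T.2, T.1)`. `ℓ T = 0` because `ρ(γ i t') = 0` for `t'` near `t` (`γ i t' ∈ frontier M`:
`≤ 0` as `M` is closed, `≥ 0` as the point is in the closure of `Mᶜ` and `ρ` is continuous near `p`);
`ℓ (J T) ≤ 0` by `BoundaryParam.left` (`ρ(p + s J T) ≤ 0 = ρ(p)` for small `s > 0`), and `≠ 0` since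
`ℓ ≠ 0` and `T, J T` is a basis; so `< 0`. Finally `I * L μ T = L μ (a T + b J T)` with real `a, b`,
`b > 0`: `L μ` has the matrix with columns `1`, `λ = -1/μ`, `Im λ > 0`, and
`b = |L μ T|² / (Im λ |T|²)`. -/
def S_TRF : Prop := ∀ (μ : ℂ), 0 < μ.im → ∀ (M : Set Pl), SmoothDomain M → ∀ (n : ℕ)
  (γ : Fin n → ℝ → Pl), BoundaryParam M γ → Dom (L μ '' M) (fun i t => L μ (γ i t))

/-- **HOL** (30 min). A left analytic function of `e = (1, μ)` is a holomorphic function of `ζ`.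
Proof: `g = f ∘ (L μ)⁻¹` is real differentiable on the open set `L μ '' U`, with derivative
`w ↦ fderiv ℝ f x ((L μ)⁻¹ w)`. With `a = fderiv ℝ f x (1, 0)`, `b = fderiv ℝ f x (0, 1)`,
`a + μ b = 0`: the derivative maps `L μ (h₁, h₂) = h₁ - h₂/μ` to `h₁ a + h₂ b = a (h₁ - h₂/μ)`, so it
is multiplication by `a`: complex linear (`HasFDerivAt`/`HasDerivAt` by restriction of scalars). -/
def S_HOL : Prop := ∀ (μ : ℂ), 0 < μ.im → ∀ (U : Set Pl) (f : Pl → ℂ), IsOpen U →
  LeftAnalytic ![1, μ] U f →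
  IsOpen (L μ '' U) ∧ ∃ g : ℂ → ℂ, DifferentiableOn ℂ g (L μ '' U) ∧ ∀ x, g (L μ x) = f x

/-- **SCA** (30 min, uses `S_DIX`, `S_TRF`, `S_HOL`). Cauchy's formula for `e = (1, μ)` in `ℂ`.
Proof: `-(γ₂' • 1) + γ₁' • μ = μ (γ₁' - γ₂'/μ) = μ L μ (γ')`, and `deriv (L μ ∘ γ) = L μ (deriv γ)`,
so the integrand is `(1/(2 π i)) g(Γ) Γ' / (Γ - ζ₀)` with `Γ = L μ ∘ γ`;
`interior (L μ '' M) = L μ '' interior M` (homeomorphism). -/
def S_SCA : Prop := ∀ μ : ℂ, 0 < μ.im → CauchyFormula ![1, μ] (Ker μ)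

/-- **ANA** (20 min). The kernels are real analytic off the diagonal. (`L μ` is injective, linear;
`AnalyticAt.div`/`inv`, `fun_prop`.) -/
def S_ANA : Prop := ∀ μ : ℂ, 0 < μ.im →
  AnalyticOnNhd ℝ (fun q : Pl × Pl => Ker μ q.1 q.2) {q | q.1 ≠ q.2}

/-- **PRD** (30 min, uses `S_SCA`, `S_ANA`). The family `(1, 1), (i, 1 + i)` in `ℂ × ℂ`.
Proof: the formula for each component (`LeftAnalytic` splits into components: `fderiv` of
`Prod.fst ∘ f`, `Prod.snd ∘ f`), the integral of a pair is the pair of the integrals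
(the integrands are continuous on `[0,1]`; or apply the continuous linear maps `fst`, `snd` with
`ContinuousLinearMap.intervalIntegral_comp_comm`, for which integrability is needed: `f ∘ γ i` is
continuous as `γ i t ∈ frontier M ⊆ M ⊆ U`, and `Ker` is continuous off the diagonal). -/
def S_PRD : Prop :=
  CauchyFormula (A := ℂ × ℂ) ![(1, 1), (Complex.I, 1 + Complex.I)]
      (fun x x₀ => (Ker Complex.I x x₀, Ker (1 + Complex.I) x x₀)) ∧
    AnalyticOnNhd ℝ (fun q : Pl × Pl =>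
      ((Ker Complex.I q.1 q.2, Ker (1 + Complex.I) q.1 q.2) : ℂ × ℂ)) {q | q.1 ≠ q.2}

/-- **ALG** (25 min). The algebra: `(1, μ)` in `ℂ` is admissible only if `μ² = -1`; the family in
`ℂ × ℂ` is linearly independent and admits no `p` with `p_j e_l + p_l e_j = 2 g_{jl}` for any nonzero
real matrix `g`.
Proof: first component: `p₁ = g₁₁`, `p₂ i = g₂₂`, `p₁ i + p₂ = 2 g₁₂` give `g₁₁ = g₂₂`, `g₁₂ = 0`
(real and imaginary parts); second component: `p₁ = g₁₁`, `p₂ (1 + i) = g₂₂`,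
`p₁ (1 + i) + p₂ = 2 g₁₂` give `g₁₁ = g₂₂ / 2` and `g₁₁ + g₂₂/2 = 2 g₁₂`. So `g = 0` (`g₂₁ = g₁₂` from the
symmetry of the left side). -/
def S_ALG : Prop :=
  (∀ μ : ℂ, Admissible (A := ℂ) ![1, μ] → μ ^ 2 = -1) ∧
  (∀ μ : ℂ, 0 < μ.im → LinearIndependent ℝ (![1, μ] : Fin 2 → ℂ)) ∧
  LinearIndependent ℝ (![(1, 1), (Complex.I, 1 + Complex.I)] : Fin 2 → ℂ × ℂ) ∧
  ¬ ∃ (p : Fin 2 → ℂ × ℂ) (g : Fin 2 → Fin 2 → ℝ), g ≠ 0 ∧
    ∀ j l, p j * (![(1, 1), (Complex.I, 1 + Complex.I)] : Fin 2 → ℂ × ℂ) l +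
      p l * (![(1, 1), (Complex.I, 1 + Complex.I)] : Fin 2 → ℂ × ℂ) j = (2 * g j l) • 1

/-- **DSK** (25 min). Sanity: the closed unit disc with the usual parametrisation of the circle is
an instance (so the Cauchy formula is not an empty statement). -/
def S_DSK : Prop :=
  SmoothDomain {x : Pl | x.1 ^ 2 + x.2 ^ 2 ≤ 1} ∧
  BoundaryParam {x : Pl | x.1 ^ 2 + x.2 ^ 2 ≤ 1}
    (fun (_ : Fin 1) (t : ℝ) => ((Real.cos (2 * Real.pi * t), Real.sin (2 * Real.pi * t)) : Pl))

end Pool.Agent.T2H72.CK
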